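import Pool.Agent.Lib.MP_86f1d3_an.Contraction

/-!
# Analytic continuation of positivity

If `(a + e z + conj (e w) + d z conj w) / (1 - z conj w)^2` is a kernel on a set of points of the
unit disc that accumulates at `0`, then `a + 2 Re (e z) + d |z|^2 ≥ 0` in the whole disc.
-/

open ComplexConjugate Filter Topology
open scoped ComplexOrder Matrix InnerProductSpace ENNReal

namespace Pool.Agent.Lib.MP_86f1d3_an

/-- The Hilbert space `ℓ²`. -/
abbrev L2 : Type := lp (fun _ : ℕ => ℂ) 2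

lemma memL2 {f : ℕ → ℂ} (hf : Summable fun n => ‖f n‖ ^ 2) : Memℓp f 2 := by
  refine memℓp_gen ?_
  simpa using hf

lemma summable_L2 (f : L2) : Summable fun n => ‖f n‖ ^ 2 := by
  have := (memℓp_gen_iff (p := 2) (by norm_num)).mp (lp.memℓp f)
  simpa using this

lemma norm_sq_L2 (f : L2) : ‖f‖ ^ 2 = ∑' n, ‖f n‖ ^ 2 := by
  have := lp.norm_rpow_eq_tsum (p := 2) (by norm_num) f
  simpa using this

/-- The coordinates of the kernel functions of the Bergman space. -/
noncomputable def coord (z : ℂ) (n : ℕ) : ℂ := (Real.sqrt (n + 1) : ℝ) * conj z ^ n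

lemma hasSum_bergman {z w : ℂ} (hz : ‖z‖ < 1) (hw : ‖w‖ < 1) :
    HasSum (fun n : ℕ => ((n : ℂ) + 1) * (z * conj w) ^ n) (bergman z w) := by
  have h : ‖z * conj w‖ < 1 := by
    rw [norm_mul, RCLike.norm_conj]
    nlinarith [norm_nonneg z, norm_nonneg w]
  have := hasSum_choose_mul_geometric_of_norm_lt_one 1 h
  simpa [bergman] using this

lemma coord_mul (z w : ℂ) (n : ℕ) :
    conj (coord z n) * coord w n = ((n : ℂ) + 1) * (z * conj w) ^ n := by
  unfold coord
  rw [map_mul, Complex.conj_ofReal, map_pow, Complex.conj_conj]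
  have : ((Real.sqrt (n + 1) : ℝ) : ℂ) * ((Real.sqrt (n + 1) : ℝ) : ℂ) = (n : ℂ) + 1 := by
    rw [← Complex.ofReal_mul, Real.mul_self_sqrt (by positivity)]
    push_cast; rfl
  calc _ = (((Real.sqrt (n + 1) : ℝ) : ℂ) * ((Real.sqrt (n + 1) : ℝ) : ℂ)) * (z ^ n * conj w ^ n) := by
        ring
    _ = _ := by rw [this, mul_pow]

lemma summable_coord {z : ℂ} (hz : ‖z‖ < 1) : Summable fun n => ‖coord z n‖ ^ 2 := by
  have h := (hasSum_bergman hz hz).summable.norm
  refine h.congr fun n => ?_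
  rw [← coord_mul, norm_mul, RCLike.norm_conj, sq]

/-- The kernel functions of the Bergman space, in `ℓ²`. -/
noncomputable def vec (z : ℂ) (hz : ‖z‖ < 1) : L2 := ⟨coord z, memL2 (summable_coord hz)⟩

lemma inner_vec {z w : ℂ} (hz : ‖z‖ < 1) (hw : ‖w‖ < 1) :
    ⟪vec z hz, vec w hw⟫_ℂ = bergman z w := by
  rw [lp.inner_eq_tsum, ← (hasSum_bergman hz hw).tsum_eq]
  refine tsum_congr fun n => ?_
  rw [← coord_mul, RCLike.inner_apply, mul_comm]
  rfl

/-- The weights of the backward shift. -/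
noncomputable def wt (n : ℕ) : ℝ := Real.sqrt (n + 1) / Real.sqrt (n + 2)

lemma wt_nonneg (n : ℕ) : 0 ≤ wt n := by unfold wt; positivity

lemma wt_le (n : ℕ) : wt n ≤ 1 := by
  unfold wt
  rw [div_le_one (by positivity)]
  exact Real.sqrt_le_sqrt (by linarith)

lemma norm_wt_mul_le (n : ℕ) (a : ℂ) : ‖(wt n : ℂ) * a‖ ^ 2 ≤ ‖a‖ ^ 2 := by
  rw [norm_mul, Complex.norm_real, Real.norm_of_nonneg (wt_nonneg n), mul_pow]
  have h1 := wt_le n
  have h0 := wt_nonneg n
  have : wt n ^ 2 ≤ 1 := by nlinarith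
  nlinarith [sq_nonneg ‖a‖]

/-- The weighted backward shift. -/
noncomputable def bshift : L2 →L[ℂ] L2 :=
  LinearMap.mkContinuous
    { toFun := fun f => ⟨fun n => (wt n : ℂ) * f (n + 1), memL2 (Summable.of_nonneg_of_le
        (fun n => by positivity) (fun n => norm_wt_mul_le n _)
        ((summable_nat_add_iff 1).mpr (summable_L2 f)))⟩
      map_add' := fun f g => by
        ext n
        show (wt n : ℂ) * (f (n + 1) + g (n + 1)) = (wt n : ℂ) * f (n + 1) + (wt n : ℂ) * g (n + 1)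
        ring
      map_smul' := fun c f => by
        ext n
        show (wt n : ℂ) * (c * f (n + 1)) = c * ((wt n : ℂ) * f (n + 1))
        ring } 1 (fun f => by
      rw [one_mul]
      refine le_of_sq_le_sq ?_ (norm_nonneg _)
      rw [norm_sq_L2, norm_sq_L2]
      have h1 := (summable_nat_add_iff 1).mpr (summable_L2 f)
      refine (Summable.tsum_le_tsum (fun n => norm_wt_mul_le n (f (n + 1))) ?_ h1).trans ?_
      · exact Summable.of_nonneg_of_le (fun n => by positivity)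
          (fun n => norm_wt_mul_le n _) h1
      · rw [(summable_L2 f).tsum_eq_zero_add]
        have : 0 ≤ ‖f 0‖ ^ 2 := by positivity
        linarith)

lemma bshift_vec {z : ℂ} (hz : ‖z‖ < 1) : bshift (vec z hz) = conj z • vec z hz := by
  ext n
  show (wt n : ℂ) * coord z (n + 1) = conj z * coord z n
  unfold coord wt
  have h2 : (Real.sqrt (n + 2) : ℝ) ≠ 0 := by positivity
  have h2' : ((Real.sqrt (n + 2) : ℝ) : ℂ) ≠ 0 := by exact_mod_cast h2
  have e : ((n + 1 : ℕ) : ℝ) + 1 = (n : ℝ) + 2 := by push_cast; ring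
  rw [e]
  push_cast
  field_simp
  ring

/-- An element of `ℓ²` that is orthogonal to many kernel functions is zero. -/
lemma eq_zero_of_inner {U : Set ℂ} (hU : ∃ᶠ z in 𝓝[≠] (0 : ℂ), z ∈ U) (f : L2)
    (hf : ∀ z (hz : ‖z‖ < 1), z ∈ U → ⟪vec z hz, f⟫_ℂ = 0) : f = 0 := by
  let c : ℕ → ℂ := fun n => (Real.sqrt (n + 1) : ℝ) * f n
  let p := FormalMultilinearSeries.ofScalars ℂ c
  have hb : ∀ n, ‖c n‖ ≤ (n + 1) * ‖f‖ := by
    intro n
    have h1 : ‖f n‖ ≤ ‖f‖ := lp.norm_apply_le_norm (by norm_num) f n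
    show ‖((Real.sqrt (n + 1) : ℝ) : ℂ) * f n‖ ≤ _
    rw [norm_mul, Complex.norm_real, Real.norm_of_nonneg (Real.sqrt_nonneg _)]
    have h2 : Real.sqrt (n + 1) ≤ n + 1 := by
      rw [Real.sqrt_le_left (by positivity)]
      have : (0 : ℝ) ≤ n := by positivity
      nlinarith
    exact mul_le_mul h2 h1 (norm_nonneg _) (by positivity)
  have hrad : ((1 / 2 : NNReal) : ℝ≥0∞) ≤ p.radius := by
    refine p.le_radius_of_bound ‖f‖ fun n => ?_
    have h1 : ‖p n‖ ≤ ‖c n‖ := by
      rw [FormalMultilinearSeries.ofScalars_norm]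
    have h2 : ((1 / 2 : NNReal) : ℝ) ^ n * (n + 1) ≤ 1 := by
      have : (n : ℝ) + 1 ≤ 2 ^ n := by
        have := one_add_mul_le_pow (a := (1 : ℝ)) (by norm_num) n
        norm_num at this ⊢
        linarith
      push_cast
      rw [div_pow, one_pow, one_div, inv_mul_le_iff₀ (by positivity)]
      linarith
    calc ‖p n‖ * ((1 / 2 : NNReal) : ℝ) ^ n ≤ ((n + 1) * ‖f‖) * ((1 / 2 : NNReal) : ℝ) ^ n :=
          mul_le_mul_of_nonneg_right (h1.trans (hb n)) (by positivity)
      _ = (((1 / 2 : NNReal) : ℝ) ^ n * (n + 1)) * ‖f‖ := by ring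
      _ ≤ 1 * ‖f‖ := mul_le_mul_of_nonneg_right h2 (norm_nonneg _)
      _ = ‖f‖ := one_mul _
  have hpos : 0 < p.radius := lt_of_lt_of_le (by norm_num) hrad
  have hps := (p.hasFPowerSeriesOnBall hpos).hasFPowerSeriesAt
  have hzero : ∃ᶠ z in 𝓝[≠] (0 : ℂ), p.sum z = 0 := by
    have hball : ∀ᶠ z in 𝓝[≠] (0 : ℂ), ‖z‖ < 1 := by
      refine nhdsWithin_le_nhds ?_
      have := Metric.ball_mem_nhds (0 : ℂ) one_pos
      filter_upwards [this] with z hz
      simpa using hz
    refine (hU.and_eventually hball).mono ?_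
    rintro z ⟨hzU, hz⟩
    have h := hf z hz hzU
    rw [lp.inner_eq_tsum] at h
    rw [FormalMultilinearSeries.sum]
    rw [← h]
    refine tsum_congr fun n => ?_
    rw [FormalMultilinearSeries.ofScalars_apply_eq, RCLike.inner_apply]
    show (((Real.sqrt (n + 1) : ℝ) : ℂ) * f n) • z ^ n =
      f n * conj (((Real.sqrt (n + 1) : ℝ) : ℂ) * conj z ^ n)
    rw [map_mul, Complex.conj_ofReal, map_pow, Complex.conj_conj, smul_eq_mul]
    ring
  have hp0 : p = 0 := by
    by_contra hne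
    have := hps.locally_ne_zero hne
    exact hzero (this.mono fun z hz h => hz h)
  have hc : c = 0 := (FormalMultilinearSeries.ofScalars_series_eq_zero (E := ℂ)).mp hp0
  ext n
  have h1 := congrFun hc n
  have h2 : ((Real.sqrt (n + 1) : ℝ) : ℂ) ≠ 0 := by
    have : (Real.sqrt (n + 1) : ℝ) ≠ 0 := by positivity
    exact_mod_cast this
  exact (mul_eq_zero.mp h1).resolve_left h2

/-- The quadratic form on `ℓ²`. -/
noncomputable def qform (a d : ℝ) (e : ℂ) (f : L2) : ℂ :=
  a * ⟪f, f⟫_ℂ + e * ⟪bshift f, f⟫_ℂ + conj e * ⟪f, bshift f⟫_ℂ + d * ⟪bshift f, bshift f⟫_ℂ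

lemma continuous_qform (a d : ℝ) (e : ℂ) : Continuous (qform a d e) := by
  unfold qform
  fun_prop

/-- **Analytic continuation of positivity.** -/
theorem nonneg_of_isKernel (a d : ℝ) (e : ℂ) {U : Set ℂ} (hU1 : ∀ z ∈ U, ‖z‖ < 1)
    (hU : ∃ᶠ z in 𝓝[≠] (0 : ℂ), z ∈ U)
    (h : IsKernel (onDomain U fun z w =>
      (a + e * z + conj e * conj w + d * (z * conj w)) * bergman z w))
    {ζ : ℂ} (hζ : ‖ζ‖ < 1) : 0 ≤ a + 2 * (e * ζ).re + d * ‖ζ‖ ^ 2 := by
  let v : U → L2 := fun z => vec z (hU1 z z.2)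
  have hbv : ∀ z : U, bshift (v z) = conj (z : ℂ) • v z := fun z => bshift_vec _
  have hin : ∀ z w : U, ⟪v z, v w⟫_ℂ = bergman z w := fun z w => inner_vec _ _
  have hspan : ∀ f ∈ Submodule.span ℂ (Set.range v), 0 ≤ (qform a d e f).re := by
    intro f hf
    obtain ⟨c, rfl⟩ := Finsupp.mem_span_range_iff_exists_finsupp.mp hf
    have h1 := h.form_re_nonneg (fun i : c.support => (i : U)) (fun i => c i)
    have e1 : (c.sum fun i a => a • v i) = ∑ i : c.support, c i • v i := by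
      rw [Finsupp.sum, ← Finset.sum_coe_sort]
    have e2 : bshift (c.sum fun i a => a • v i) = ∑ i : c.support, (c i * conj ((i : U) : ℂ)) • v i := by
      rw [e1, map_sum]
      refine Finset.sum_congr rfl fun i _ => ?_
      rw [map_smul, hbv, smul_smul]
    have e3 : qform a d e (c.sum fun i a => a • v i) = form (onDomain U fun z w =>
        (a + e * z + conj e * conj w + d * (z * conj w)) * bergman z w)
        (fun i : c.support => (i : U)) (fun i => c i) := by
      unfold qform form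
      rw [e2, e1]
      simp only [sum_inner, inner_sum, inner_smul_left, inner_smul_right, hin, Finset.mul_sum,
        ← Finset.sum_add_distrib]
      rw [Finset.sum_comm]
      refine Finset.sum_congr rfl fun i _ => Finset.sum_congr rfl fun j _ => ?_
      unfold onDomain
      rw [map_mul, Complex.conj_conj]
      ring
    rw [e3]
    exact h1
  have hdense : (Submodule.span ℂ (Set.range v)).topologicalClosure = ⊤ := by
    rw [Submodule.topologicalClosure_eq_top_iff, Submodule.eq_bot_iff]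
    intro f hf
    refine eq_zero_of_inner hU f fun z hz hzU => ?_
    exact hf _ (Submodule.subset_span ⟨⟨z, hzU⟩, rfl⟩)
  have hall : ∀ f : L2, 0 ≤ (qform a d e f).re := by
    intro f
    have hmem : f ∈ closure (Submodule.span ℂ (Set.range v) : Set L2) := by
      have : f ∈ (Submodule.span ℂ (Set.range v)).topologicalClosure := by
        rw [hdense]; trivial
      exact this
    have hclosed : IsClosed {f : L2 | 0 ≤ (qform a d e f).re} :=
      isClosed_le continuous_const (Complex.continuous_re.comp (continuous_qform a d e))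
    exact closure_minimal (fun g hg => hspan g hg) hclosed hmem
  have h1 := hall (vec ζ hζ)
  unfold qform at h1
  rw [bshift_vec, inner_smul_left, inner_smul_right, inner_smul_left, inner_smul_right, inner_vec,
    Complex.conj_conj] at h1
  have hb : bergman ζ ζ = ((1 / (1 - ‖ζ‖ ^ 2) ^ 2 : ℝ) : ℂ) := by
    unfold bergman
    rw [Complex.mul_conj, Complex.normSq_eq_norm_sq]
    push_cast; rfl
  have hpos : 0 < 1 / (1 - ‖ζ‖ ^ 2) ^ 2 := by
    have : 0 < 1 - ‖ζ‖ ^ 2 := by nlinarith [norm_nonneg ζ]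
    positivity
  have e4 : ((a : ℂ) * bergman ζ ζ + e * (ζ * bergman ζ ζ) + conj e * (conj ζ * bergman ζ ζ) +
      d * (ζ * (conj ζ * bergman ζ ζ))).re =
      (a + 2 * (e * ζ).re + d * ‖ζ‖ ^ 2) * (1 / (1 - ‖ζ‖ ^ 2) ^ 2) := by
    rw [hb]
    have h2 : (a : ℂ) * ((1 / (1 - ‖ζ‖ ^ 2) ^ 2 : ℝ) : ℂ) + e * (ζ * ((1 / (1 - ‖ζ‖ ^ 2) ^ 2 : ℝ) : ℂ)) +
        conj e * (conj ζ * ((1 / (1 - ‖ζ‖ ^ 2) ^ 2 : ℝ) : ℂ)) +
        d * (ζ * (conj ζ * ((1 / (1 - ‖ζ‖ ^ 2) ^ 2 : ℝ) : ℂ))) =
        ((a : ℂ) + (e * ζ + conj (e * ζ)) + d * (ζ * conj ζ)) *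
          ((1 / (1 - ‖ζ‖ ^ 2) ^ 2 : ℝ) : ℂ) := by
      rw [map_mul]; ring
    rw [h2, Complex.re_mul_ofReal, Complex.mul_conj, Complex.add_conj, Complex.normSq_eq_norm_sq,
      ← Complex.ofReal_mul, ← Complex.ofReal_add, ← Complex.ofReal_add, Complex.ofReal_re]
  rw [e4] at h1
  exact nonneg_of_mul_nonneg_left h1 hpos

end Pool.Agent.Lib.MP_86f1d3_an
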