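import Pool.Agent.Lib.MP_86f1d3_an.Kernel

/-!
# Contractions between Hilbert spaces
-/

open ComplexConjugate
open scoped ComplexOrder Matrix InnerProductSpace

namespace Pool.Agent.Lib.MP_86f1d3_an

section

variable {M H₁ H₂ : Type*} [AddCommGroup M] [Module ℂ M]
  [NormedAddCommGroup H₁] [InnerProductSpace ℂ H₁] [CompleteSpace H₁]
  [NormedAddCommGroup H₂] [InnerProductSpace ℂ H₂] [CompleteSpace H₂]

/-- A linear map that is dominated in norm by `S` factors as a contraction after `S`. -/
lemma exists_contraction (S : M →ₗ[ℂ] H₁) (T : M →ₗ[ℂ] H₂) (h : ∀ m, ‖T m‖ ≤ ‖S m‖) :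
    ∃ R : H₁ →L[ℂ] H₂, (∀ m, R (S m) = T m) ∧ ∀ x, ‖R x‖ ≤ ‖x‖ := by
  set P := (LinearMap.range S).topologicalClosure with hP
  have : CompleteSpace P := (Submodule.isClosed_topologicalClosure _).completeSpace_coe
  have hmem : ∀ m, S m ∈ P := fun m =>
    (LinearMap.range S).le_topologicalClosure (LinearMap.mem_range_self S m)
  let e : M →ₗ[ℂ] P := S.codRestrict P hmem
  have hd : DenseRange e := by
    intro x
    have hx : (x : H₁) ∈ closure (LinearMap.range S : Set H₁) := x.2
    rw [mem_closure_iff_nhds] at hx ⊢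
    intro t ht
    rw [nhds_subtype_eq_comap] at ht
    obtain ⟨u, hu, hut⟩ := ht
    obtain ⟨y, hyu, m, hm⟩ := hx u hu
    refine ⟨e m, hut ?_, ⟨m, rfl⟩⟩
    show ((e m : P) : H₁) ∈ u
    have : ((e m : P) : H₁) = y := hm
    rw [this]; exact hyu
  have hn : ∀ m, ‖T m‖ ≤ 1 * ‖e m‖ := fun m => by
    rw [one_mul]; exact h m
  refine ⟨(T.extendOfNorm e).comp P.orthogonalProjectionOnto, fun m => ?_, fun x => ?_⟩
  · have h1 : P.orthogonalProjectionOnto (S m) = e m :=
      P.orthogonalProjectionOnto_mem_subspace_eq_self (e m)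
    rw [ContinuousLinearMap.comp_apply, h1]
    exact LinearMap.extendOfNorm_eq hd ⟨1, hn⟩ m
  · rw [ContinuousLinearMap.comp_apply]
    refine (LinearMap.norm_extendOfNorm_apply_le hd 1 hn _).trans ?_
    rw [one_mul]
    exact P.norm_orthogonalProjectionOnto_apply_le x

end

/-- The Gram kernel. -/
lemma isKernel_gram {Y H : Type} [NormedAddCommGroup H] [InnerProductSpace ℂ H] (a : Y → H) :
    IsKernel (fun p q => ⟪a p, a q⟫_ℂ) := by
  refine isKernel_of (fun p q => (inner_conj_symm _ _).symm) fun n z c => ?_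
  have : form (fun p q => ⟪a p, a q⟫_ℂ) z c = ⟪∑ i, c i • a (z i), ∑ i, c i • a (z i)⟫_ℂ := by
    unfold form
    rw [sum_inner]
    refine Finset.sum_congr rfl fun i _ => ?_
    rw [inner_sum]
    refine Finset.sum_congr rfl fun j _ => ?_
    rw [inner_smul_left, inner_smul_right]; ring
  rw [this, inner_self_eq_norm_sq_to_K]
  simp only [Complex.coe_algebraMap, ← Complex.ofReal_pow, Complex.ofReal_re]
  positivity

section

variable {Y H₁ H₂ : Type} [NormedAddCommGroup H₁] [InnerProductSpace ℂ H₁]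
  [NormedAddCommGroup H₂] [InnerProductSpace ℂ H₂]

/-- If the difference of two Gram kernels is a kernel, then the norms of linear combinations
compare. -/
lemma norm_linearCombination_le (a : Y → H₁) (b : Y → H₂)
    (h : IsKernel (fun p q => ⟪a p, a q⟫_ℂ - ⟪b p, b q⟫_ℂ)) (c : Y →₀ ℂ) :
    ‖Finsupp.linearCombination ℂ b c‖ ≤ ‖Finsupp.linearCombination ℂ a c‖ := by
  have h1 := h.form_re_nonneg (fun i : c.support => (i : Y)) (fun i => c i)
  have ea : Finsupp.linearCombination ℂ a c = ∑ i : c.support, c i • a i := by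
    rw [Finsupp.linearCombination_apply, Finsupp.sum, ← Finset.sum_coe_sort]
  have eb : Finsupp.linearCombination ℂ b c = ∑ i : c.support, c i • b i := by
    rw [Finsupp.linearCombination_apply, Finsupp.sum, ← Finset.sum_coe_sort]
  have e : form (fun p q => ⟪a p, a q⟫_ℂ - ⟪b p, b q⟫_ℂ) (fun i : c.support => (i : Y))
      (fun i => c i) = ⟪Finsupp.linearCombination ℂ a c, Finsupp.linearCombination ℂ a c⟫_ℂ -
      ⟪Finsupp.linearCombination ℂ b c, Finsupp.linearCombination ℂ b c⟫_ℂ := by
    rw [ea, eb, sum_inner, sum_inner, ← Finset.sum_sub_distrib]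
    unfold form
    refine Finset.sum_congr rfl fun i _ => ?_
    rw [inner_sum, inner_sum, ← Finset.sum_sub_distrib]
    refine Finset.sum_congr rfl fun j _ => ?_
    rw [inner_smul_left, inner_smul_right, inner_smul_left, inner_smul_right]; ring
  rw [e, Complex.sub_re] at h1
  have n1 : (⟪Finsupp.linearCombination ℂ a c, Finsupp.linearCombination ℂ a c⟫_ℂ).re =
      ‖Finsupp.linearCombination ℂ a c‖ ^ 2 := by
    rw [inner_self_eq_norm_sq_to_K]
    simp only [Complex.coe_algebraMap, ← Complex.ofReal_pow, Complex.ofReal_re]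
  have n2 : (⟪Finsupp.linearCombination ℂ b c, Finsupp.linearCombination ℂ b c⟫_ℂ).re =
      ‖Finsupp.linearCombination ℂ b c‖ ^ 2 := by
    rw [inner_self_eq_norm_sq_to_K]
    simp only [Complex.coe_algebraMap, ← Complex.ofReal_pow, Complex.ofReal_re]
  rw [n1, n2] at h1
  exact le_of_sq_le_sq (by linarith) (norm_nonneg _)

end

end Pool.Agent.Lib.MP_86f1d3_an
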