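import Pool.Agent.Lib.MP_86f1d3_an.Kernel

/-!
# The polynomials of the counterexample
-/

open ComplexConjugate Complex

namespace Pool.Agent.Lib.MP_86f1d3_an

/-- The first point. -/
noncomputable def w₁ : ℂ := (8 + 4 * I) / 9

/-- The second point. -/
noncomputable def w₂ : ℂ := (5 - 3 * I) / 6

/-- A polynomial. -/
noncomputable def pF (z : ℂ) : ℂ :=
  z * ((-16707870 + 19913526 * I) + z * ((24894738 - 32571801 * I) + z * ((-12017406 + 17873274 * I) + z * ((3587492 - 4854116 * I)))))

/-- The polynomial with the conjugate coefficients. -/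
noncomputable def cF (v : ℂ) : ℂ :=
  v * ((-16707870 - 19913526 * I) + v * ((24894738 + 32571801 * I) + v * ((-12017406 - 17873274 * I) + v * ((3587492 + 4854116 * I)))))

lemma conj_pF (z : ℂ) : conj (pF z) = cF (conj z) := by
  simp only [pF, cF, map_add, map_sub, map_mul, map_neg, map_ofNat, conj_I]
  ring

/-- A polynomial. -/
noncomputable def pG (z : ℂ) : ℂ :=
  (-10881660 - 913944 * I) + z * ((6771074 - 2123278 * I) + z * ((4521309 + 3326436 * I)))

/-- The polynomial with the conjugate coefficients. -/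
noncomputable def cG (v : ℂ) : ℂ :=
  (-10881660 + 913944 * I) + v * ((6771074 + 2123278 * I) + v * ((4521309 - 3326436 * I)))

lemma conj_pG (z : ℂ) : conj (pG z) = cG (conj z) := by
  simp only [pG, cG, map_add, map_sub, map_mul, map_neg, map_ofNat, conj_I]
  ring

/-- A polynomial. -/
noncomputable def pS (z : ℂ) : ℂ :=
  z * ((-5518842 + 5198070 * I) + z * ((9121277 - 8433056 * I)))

/-- The polynomial with the conjugate coefficients. -/
noncomputable def cS (v : ℂ) : ℂ :=
  v * ((-5518842 - 5198070 * I) + v * ((9121277 + 8433056 * I)))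

lemma conj_pS (z : ℂ) : conj (pS z) = cS (conj z) := by
  simp only [pS, cS, map_add, map_sub, map_mul, map_neg, map_ofNat, conj_I]
  ring

/-- A polynomial. -/
noncomputable def pQ (z : ℂ) : ℂ :=
  z * ((24 - 28 * I) + z * ((-45 + 48 * I) + z * ((27 - 27 * I))))

/-- The polynomial with the conjugate coefficients. -/
noncomputable def cQ (v : ℂ) : ℂ :=
  v * ((24 + 28 * I) + v * ((-45 - 48 * I) + v * ((27 + 27 * I))))

lemma conj_pQ (z : ℂ) : conj (pQ z) = cQ (conj z) := by
  simp only [pQ, cQ, map_add, map_sub, map_mul, map_neg, map_ofNat, conj_I]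
  ring

/-- The main identity. -/
lemma main_identity (z v : ℂ) :
    pF z * cF v - pG z * cG v = pQ z * cQ v *
      (279214891884 + (-110357438610 + 15371030802 * I) * z +
        (-110357438610 - 15371030802 * I) * v + (-59241546696) * (z * v)) -
      (1 - z * v) ^ 2 * (pG z * cG v - pS z * cS v) := by
  unfold pF cF pG cG pQ cQ pS cS
  linear_combination ((-148953523520448)*z*v + (146879858492934)*z*v^2 + (-12050888148768)*z*v^2*I + (-933331868532)*z*v^3 + (20658665397888)*z*v^3*I + (11572270257240)*z*v^4 + (-11620499286312)*z*v^4*I + (146879858492934)*z^2*v + (12050888148768)*z^2*v*I + (-145477934417313)*z^2*v^2 + (35493948865242)*z^2*v^3 + (-23794355681496)*z^2*v^3*I + (-55585439527986)*z^2*v^4 + (19920855919392)*z^2*v^4*I + (-933331868532)*z^3*v + (-20658665397888)*z^3*v*I + (35493948865242)*z^3*v^2 + (23794355681496)*z^3*v^2*I + (-66433308810492)*z^3*v^3 + (46312750042398)*z^3*v^4 + (-11205481454658)*z^3*v^4*I + (11572270257240)*z^4*v + (11620499286312)*z^4*v*I + (-55585439527986)*z^4*v^2 + (-19920855919392)*z^4*v^2*I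 + (46312750042398)*z^4*v^3 + (11205481454658)*z^4*v^3*I + (-6698272645800)*z^4*v^4) * I_sq

end Pool.Agent.Lib.MP_86f1d3_an
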