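import Mathlib

/-!
# Strong Shimorin certificates

The definitions used in the statement of the main theorem.
-/

open ComplexConjugate
open scoped ComplexOrder Matrix

namespace Pool.Agent.Lib.MP_86f1d3_an

/-- `K` is a kernel on `X`: all the matrices `[K (z i) (z j)]` are positive semidefinite. -/
def IsKernel {X : Type} (K : X → X → ℂ) : Prop :=
  ∀ (n : ℕ) (z : Fin n → X), (Matrix.of fun i j => K (z i) (z j)).PosSemidef

/-- The Hilbert space `ℂ^N`. -/
abbrev Cn (N : ℕ) : Type := EuclideanSpace ℂ (Fin N)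

/-- `H` is (a realisation of) the Hilbert space `H_s ⊗ ℂ^N`, that is the reproducing kernel Hilbert
space of functions `X → ℂ^N` with kernel `s(x,y) I_N`: for all `y` and `v` the function
`k = s(·,y) v` is in `H` and `⟨f, k⟩ = ⟨f(y), v⟩` for all `f` in `H`.  (In Mathlib `inner` is
conjugate linear in the first variable.) -/
def IsTensorSpace {X : Type} {N : ℕ} (s : X → X → ℂ) (H : Type) [NormedAddCommGroup H]
    [InnerProductSpace ℂ H] [CompleteSpace H] [RKHS ℂ H X (Cn N)] : Prop :=
  ∀ (y : X) (v : Cn N), ∃ k : H, (∀ x, k x = s x y • v) ∧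
    ∀ f : H, inner ℂ k f = ∑ i, conj (v i) * f y i

/-- The matrix valued function `Φ` is a multiplier of norm at most one of the Hilbert space
`H_s ⊗ ℂ^N`.  The definition quantifies over all the realisations `H` of this space; one exists
for every kernel `s` (`exists_realisation` in the file `Realise`), and it is unique up to an
isometry. -/
def IsContractiveMultiplier {X : Type} {N : ℕ} (s : X → X → ℂ)
    (Φ : X → Matrix (Fin N) (Fin N) ℂ) : Prop :=
  ∀ (H : Type) [NormedAddCommGroup H] [InnerProductSpace ℂ H] [CompleteSpace H]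
    [RKHS ℂ H X (Cn N)], IsTensorSpace s H →
    ∀ f : H, ∃ g : H, (∀ x, (g x).ofLp = Φ x *ᵥ (f x).ofLp) ∧ ‖g‖ ≤ ‖f‖

/-- `s` is a complete Pick kernel on `X`: it is a kernel, and for all `n, N ≥ 1`, all points
`z_1, …, z_n` and all `N × N` matrices `W_1, …, W_n` for which the block matrix
`[s(z_i,z_j) (I - W_i W_j^*)]` is positive semidefinite there is a multiplier `Φ` of
`H_s ⊗ ℂ^N` of norm at most one with `Φ(z_i) = W_i` for all `i`. -/
def IsCompletePick {X : Type} (s : X → X → ℂ) : Prop :=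
  IsKernel s ∧
  ∀ (n N : ℕ), 1 ≤ n → 1 ≤ N → ∀ (z : Fin n → X) (W : Fin n → Matrix (Fin N) (Fin N) ℂ),
    (Matrix.of fun p r : Fin n × Fin N =>
      s (z p.1) (z r.1) * (1 - W p.1 * (W r.1)ᴴ) p.2 r.2).PosSemidef →
    ∃ Φ : X → Matrix (Fin N) (Fin N) ℂ, IsContractiveMultiplier s Φ ∧ ∀ i, Φ (z i) = W i

/-- `s` is a strong Shimorin certificate for `(k, ℓ)` on `X`. -/
def IsCertificate {X : Type} (k l s : X → X → ℂ) : Prop :=
  IsCompletePick s ∧ ∃ h g : X → X → ℂ, IsKernel h ∧ IsKernel g ∧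
    (∀ z w, k z w = (1 - h z w) * s z w) ∧ ∀ z w, l z w = s z w * g z w

/-- The kernel `1 / (1 - G(z) conj G(w))`. -/
noncomputable def rankOne {X : Type} (G : X → ℂ) : X → X → ℂ :=
  fun z w => 1 / (1 - G z * conj (G w))

/-- The Bergman kernel `(1 - z conj w)^(-2)`. -/
noncomputable def bergman (z w : ℂ) : ℂ := 1 / (1 - z * conj w) ^ 2

/-- The restriction of a function of two complex variables to `Ω × Ω`. -/
def onDomain (Ω : Set ℂ) (K : ℂ → ℂ → ℂ) : Ω → Ω → ℂ := fun z w => K z w

/-- `l` is a holomorphic kernel on `Ω`: its restriction to `Ω × Ω` is a kernel which is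
holomorphic in the first variable and conjugate holomorphic in the second. -/
def IsHolomorphicKernel (Ω : Set ℂ) (l : ℂ → ℂ → ℂ) : Prop :=
  IsKernel (onDomain Ω l) ∧
  (∀ w ∈ Ω, DifferentiableOn ℂ (fun z => l z w) Ω) ∧
  ∀ z ∈ Ω, DifferentiableOn ℂ (fun w => conj (l z w)) Ω

end Pool.Agent.Lib.MP_86f1d3_an
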