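import Pool.Agent.Lib.MP_86f1d3_an.Defs

/-!
# Basic facts on kernels
-/

open ComplexConjugate
open scoped ComplexOrder Matrix

namespace Pool.Agent.Lib.MP_86f1d3_an

variable {X Y : Type}

/-- The quadratic form of `K`. -/
noncomputable def form {X : Type} (K : X → X → ℂ) {ι : Type} [Fintype ι] (z : ι → X)
    (c : ι → ℂ) : ℂ :=
  ∑ i, ∑ j, conj (c i) * c j * K (z i) (z j)

lemma star_dotProduct_eq {K : X → X → ℂ} {ι : Type} [Fintype ι] (z : ι → X) (c : ι → ℂ) :
    star c ⬝ᵥ ((Matrix.of fun i j => K (z i) (z j)) *ᵥ c) = form K z c := by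
  simp only [dotProduct, Matrix.mulVec, Matrix.of_apply, form, Finset.mul_sum, Pi.star_apply]
  refine Finset.sum_congr rfl fun i _ => Finset.sum_congr rfl fun j _ => ?_
  simp only [RCLike.star_def]; ring

lemma IsKernel.herm {K : X → X → ℂ} (hK : IsKernel K) (x y : X) : K y x = conj (K x y) := by
  have h := (hK 2 ![x, y]).isHermitian.apply 1 0
  simp only [Matrix.of_apply, Matrix.cons_val_one, Matrix.cons_val_zero] at h
  rw [← h]; rfl

lemma form_equiv {K : X → X → ℂ} {ι κ : Type} [Fintype ι] [Fintype κ] (e : κ ≃ ι) (z : ι → X)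
    (c : ι → ℂ) : form K (z ∘ e) (c ∘ e) = form K z c := by
  unfold form
  rw [← e.sum_comp]
  refine Finset.sum_congr rfl fun i _ => ?_
  rw [← e.sum_comp]; rfl

lemma IsKernel.form_nonneg {K : X → X → ℂ} (hK : IsKernel K) {ι : Type} [Fintype ι] (z : ι → X)
    (c : ι → ℂ) : 0 ≤ form K z c := by
  have h := (hK (Fintype.card ι) (z ∘ (Fintype.equivFin ι).symm)).dotProduct_mulVec_nonneg
    (c ∘ (Fintype.equivFin ι).symm)
  rw [star_dotProduct_eq (K := K)] at h
  rwa [form_equiv] at h

lemma IsKernel.form_re_nonneg {K : X → X → ℂ} (hK : IsKernel K) {ι : Type} [Fintype ι] (z : ι → X)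
    (c : ι → ℂ) : 0 ≤ (form K z c).re := (Complex.nonneg_iff.mp (hK.form_nonneg z c)).1

lemma form_im {K : X → X → ℂ} (hh : ∀ x y, K y x = conj (K x y)) {ι : Type} [Fintype ι] (z : ι → X)
    (c : ι → ℂ) : (form K z c).im = 0 := by
  have : conj (form K z c) = form K z c := by
    unfold form
    rw [map_sum]
    simp_rw [map_sum]
    rw [Finset.sum_comm]
    refine Finset.sum_congr rfl fun i _ => Finset.sum_congr rfl fun j _ => ?_
    rw [map_mul, map_mul, Complex.conj_conj, ← hh]
    ring
  exact Complex.conj_eq_iff_im.mp this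

lemma isKernel_of {K : X → X → ℂ} (hh : ∀ x y, K y x = conj (K x y))
    (hp : ∀ (n : ℕ) (z : Fin n → X) (c : Fin n → ℂ), 0 ≤ (form K z c).re) : IsKernel K := by
  intro n z
  refine Matrix.PosSemidef.of_dotProduct_mulVec_nonneg ?_ fun c => ?_
  · ext i j
    simp only [Matrix.conjTranspose_apply, Matrix.of_apply, RCLike.star_def]
    rw [← hh]
  · rw [star_dotProduct_eq]
    rw [Complex.nonneg_iff]
    exact ⟨hp n z c, (form_im hh z c).symm⟩

lemma IsKernel.comp {K : X → X → ℂ} (hK : IsKernel K) (f : Y → X) :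
    IsKernel (fun a b => K (f a) (f b)) := fun n z => hK n (f ∘ z)

lemma IsKernel.congr {K K' : X → X → ℂ} (hK : IsKernel K) (h : ∀ x y, K' x y = K x y) :
    IsKernel K' := by
  have : K' = K := by funext x y; exact h x y
  rw [this]; exact hK

lemma IsKernel.add {K L : X → X → ℂ} (hK : IsKernel K) (hL : IsKernel L) :
    IsKernel (fun x y => K x y + L x y) := fun n z => (hK n z).add (hL n z)

lemma IsKernel.mul {K L : X → X → ℂ} (hK : IsKernel K) (hL : IsKernel L) :
    IsKernel (fun x y => K x y * L x y) := fun n z => (hK n z).hadamard (hL n z)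

lemma isKernel_rank (f : X → ℂ) : IsKernel (fun x y => f x * conj (f y)) := by
  refine isKernel_of (fun x y => by simp [mul_comm]) fun n z c => ?_
  have : form (fun x y => f x * conj (f y)) z c =
      (∑ i, conj (c i) * f (z i)) * conj (∑ i, conj (c i) * f (z i)) := by
    unfold form
    rw [map_sum, Finset.sum_mul_sum]
    refine Finset.sum_congr rfl fun i _ => Finset.sum_congr rfl fun j _ => ?_
    rw [map_mul, Complex.conj_conj]; ring
  rw [this, Complex.mul_conj]
  simpa using Complex.normSq_nonneg _

lemma isKernel_const {a : ℝ} (ha : 0 ≤ a) : IsKernel (fun _ _ : X => (a : ℂ)) := by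
  refine (isKernel_rank (fun _ : X => ((Real.sqrt a : ℝ) : ℂ))).congr fun x y => ?_
  rw [Complex.conj_ofReal, ← Complex.ofReal_mul, Real.mul_self_sqrt ha]

lemma IsKernel.smul {K : X → X → ℂ} (hK : IsKernel K) {a : ℝ} (ha : 0 ≤ a) :
    IsKernel (fun x y => (a : ℂ) * K x y) := (isKernel_const ha).mul hK

lemma isKernel_one : IsKernel (fun _ _ : X => (1 : ℂ)) :=
  (isKernel_const zero_le_one).congr fun _ _ => by simp

lemma isKernel_zero : IsKernel (fun _ _ : X => (0 : ℂ)) :=
  (isKernel_const le_rfl).congr fun _ _ => by simp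

lemma IsKernel.sum {ι : Type} (s : Finset ι) {K : ι → X → X → ℂ} (hK : ∀ i ∈ s, IsKernel (K i)) :
    IsKernel (fun x y => ∑ i ∈ s, K i x y) := by
  classical
  induction s using Finset.induction_on with
  | empty => simpa using isKernel_zero
  | insert a s ha ih =>
    simp only [Finset.sum_insert ha]
    exact (hK a (Finset.mem_insert_self a s)).add
      (ih fun i hi => hK i (Finset.mem_insert_of_mem hi))

lemma IsKernel.pow {K : X → X → ℂ} (hK : IsKernel K) (m : ℕ) :
    IsKernel (fun x y => K x y ^ m) := by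
  induction m with
  | zero => simpa using isKernel_one
  | succ m ih => simpa only [pow_succ] using ih.mul hK

lemma IsKernel.limit {K : ℕ → X → X → ℂ} {L : X → X → ℂ} (hK : ∀ m, IsKernel (K m))
    (hL : ∀ x y, Filter.Tendsto (fun m => K m x y) Filter.atTop (nhds (L x y))) : IsKernel L := by
  refine isKernel_of (fun x y => ?_) fun n z c => ?_
  · refine tendsto_nhds_unique (hL y x) ?_
    have := (Complex.continuous_conj.tendsto _).comp (hL x y)
    refine this.congr fun m => ?_
    exact ((hK m).herm x y).symm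
  · have h : Filter.Tendsto (fun m => (form (K m) z c).re) Filter.atTop
        (nhds (form L z c).re) := by
      refine (Complex.continuous_re.tendsto _).comp ?_
      unfold form
      refine tendsto_finsetSum _ fun i _ => tendsto_finsetSum _ fun j _ => ?_
      exact (hL _ _).const_mul _
    exact ge_of_tendsto' h fun m => (hK m).form_re_nonneg z c

lemma IsKernel.diag_re {K : X → X → ℂ} (hK : IsKernel K) (x : X) : 0 ≤ (K x x).re := by
  have := hK.form_re_nonneg (fun _ : Unit => x) (fun _ => 1)
  simpa [form] using this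

lemma IsKernel.diag_im {K : X → X → ℂ} (hK : IsKernel K) (x : X) : (K x x).im = 0 :=
  Complex.conj_eq_iff_im.mp (hK.herm x x).symm

/-- Cauchy-Schwarz. -/
lemma IsKernel.normSq_le {K : X → X → ℂ} (hK : IsKernel K) (x y : X) :
    Complex.normSq (K x y) ≤ (K x x).re * (K y y).re := by
  have key : ∀ t : ℝ, 0 ≤ (K x x).re * (t * t) + (2 * Complex.normSq (K x y)) * t +
      Complex.normSq (K x y) * (K y y).re := by
    intro t
    have h := hK.form_re_nonneg ![x, y] ![(t : ℂ), conj (K x y)]
    simp only [form, Fin.sum_univ_two, Matrix.cons_val_zero, Matrix.cons_val_one,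
      Complex.conj_ofReal, Complex.conj_conj] at h
    rw [hK.herm x y] at h
    have e : ((t : ℂ) * t * K x x + t * conj (K x y) * K x y + (K x y * t * conj (K x y) +
        K x y * conj (K x y) * K y y)).re = (K x x).re * (t * t) +
        (2 * Complex.normSq (K x y)) * t + Complex.normSq (K x y) * (K y y).re := by
      have hx := hK.diag_im x
      have hy := hK.diag_im y
      simp only [Complex.add_re, Complex.mul_re, Complex.mul_im, Complex.conj_re, Complex.conj_im,
        Complex.ofReal_re, Complex.ofReal_im, Complex.normSq_apply, hx, hy]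
      ring
    rw [e] at h
    exact h
  have hd := discrim_le_zero key
  unfold discrim at hd
  have hn := Complex.normSq_nonneg (K x y)
  by_cases h0 : Complex.normSq (K x y) = 0
  · rw [h0]; exact mul_nonneg (hK.diag_re x) (hK.diag_re y)
  · have hpos : 0 < Complex.normSq (K x y) := lt_of_le_of_ne hn (Ne.symm h0)
    nlinarith

lemma IsKernel.norm_lt_one {K : X → X → ℂ} (hK : IsKernel K) {x y : X} (hx : (K x x).re < 1)
    (hy : (K y y).re < 1) : ‖K x y‖ < 1 := by
  have h := hK.normSq_le x y
  have h2 : (K x x).re * (K y y).re < 1 := by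
    have := hK.diag_re x; have := hK.diag_re y
    nlinarith
  rw [Complex.normSq_eq_norm_sq] at h
  nlinarith [norm_nonneg (K x y)]

/-- The geometric series of a kernel is a kernel. -/
lemma IsKernel.inv_one_sub {K : X → X → ℂ} (hK : IsKernel K) (h1 : ∀ x, (K x x).re < 1) :
    IsKernel (fun x y => 1 / (1 - K x y)) := by
  refine IsKernel.limit (K := fun m x y => ∑ i ∈ Finset.range m, K x y ^ i)
    (fun m => IsKernel.sum _ fun i _ => hK.pow i) fun x y => ?_
  have := (hasSum_geometric_of_norm_lt_one (hK.norm_lt_one (h1 x) (h1 y))).tendsto_sum_nat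
  rwa [← one_div] at this

lemma IsKernel.posSemidef {K : X → X → ℂ} (hK : IsKernel K) {ι : Type} [Fintype ι] (z : ι → X) :
    (Matrix.of fun i j => K (z i) (z j)).PosSemidef := by
  refine Matrix.PosSemidef.of_dotProduct_mulVec_nonneg ?_ fun c => ?_
  · ext i j
    simp only [Matrix.conjTranspose_apply, Matrix.of_apply, RCLike.star_def]
    rw [← hK.herm]
  · rw [star_dotProduct_eq]
    exact hK.form_nonneg z c

/-- A kernel whose quadratic form vanishes at a vector. -/
lemma IsKernel.eq_zero_of_form {K : X → X → ℂ} (hK : IsKernel K) {ι : Type} [Fintype ι]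
    (z : ι → X) (c : ι → ℂ) (h : form K z c = 0) (x : X) : ∑ j, K x (z j) * c j = 0 := by
  classical
  have hM := hK.posSemidef (ι := Option ι) (fun o => o.elim x z)
  have h0 : star (fun o : Option ι => o.elim (0 : ℂ) c) ⬝ᵥ
      ((Matrix.of fun i j : Option ι => K (i.elim x z) (j.elim x z)) *ᵥ
        (fun o : Option ι => o.elim (0 : ℂ) c)) = 0 := by
    rw [star_dotProduct_eq (K := K) (fun o : Option ι => o.elim x z)]
    refine Eq.trans ?_ h
    unfold form
    rw [Fintype.sum_option]
    simp only [Fintype.sum_option, Option.elim_none, Option.elim_some, map_zero, zero_mul,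
      mul_zero, Finset.sum_const_zero, zero_add]
  have h1 := (hM.dotProduct_mulVec_zero_iff _).mp h0
  have h2 := congrFun h1 none
  simp only [Matrix.mulVec, dotProduct, Matrix.of_apply, Fintype.sum_option, Option.elim_none,
    Option.elim_some, mul_zero, zero_add, Pi.zero_apply] at h2
  exact h2

end Pool.Agent.Lib.MP_86f1d3_an
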