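import Pool.Agent.Lib.MP_86f1d3_an.Contraction

/-!
# A criterion for contractive multipliers
-/

open ComplexConjugate
open scoped ComplexOrder Matrix InnerProductSpace

namespace Pool.Agent.Lib.MP_86f1d3_an

lemma inner_conjTranspose {N : ℕ} (A : Matrix (Fin N) (Fin N) ℂ) (v w : Cn N) :
    ⟪(Aᴴ).toEuclideanLin v, w⟫_ℂ = ⟪v, A.toEuclideanLin w⟫_ℂ := by
  rw [Matrix.toEuclideanLin_conjTranspose_eq_adjoint, LinearMap.adjoint_inner_left]

lemma isContractiveMultiplier_of {X : Type} {N : ℕ} {s : X → X → ℂ}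
    {Φ : X → Matrix (Fin N) (Fin N) ℂ}
    (h : IsKernel (fun p q : X × Cn N => s p.1 q.1 * (⟪p.2, q.2⟫_ℂ -
      ⟪((Φ p.1)ᴴ).toEuclideanLin p.2, ((Φ q.1)ᴴ).toEuclideanLin q.2⟫_ℂ))) :
    IsContractiveMultiplier s Φ := by
  intro H _ _ _ _ hker f
  have hk : ∀ (y : X) (v : Cn N) (x : X), RKHS.kerFun H y v x = s x y • v := by
    intro y v x
    obtain ⟨k, hk1, hk2⟩ := hker y v
    have : RKHS.kerFun H y v = k := by
      refine ext_inner_right ℂ fun f => ?_
      rw [RKHS.kerFun_inner, hk2, PiLp.inner_apply]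
      refine Finset.sum_congr rfl fun i _ => ?_
      rw [RCLike.inner_apply, mul_comm]
    rw [this, hk1]
  have hin : ∀ (x y : X) (v w : Cn N),
      ⟪RKHS.kerFun H x v, RKHS.kerFun H y w⟫_ℂ = s x y * ⟪v, w⟫_ℂ := by
    intro x y v w
    rw [RKHS.kerFun_inner, hk, inner_smul_right]
  let a : X × Cn N → H := fun p => RKHS.kerFun H p.1 p.2
  let b : X × Cn N → H := fun p => RKHS.kerFun H p.1 (((Φ p.1)ᴴ).toEuclideanLin p.2)
  have hab : IsKernel (fun p q => ⟪a p, a q⟫_ℂ - ⟪b p, b q⟫_ℂ) := by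
    refine h.congr fun p q => ?_
    simp only [a, b, hin]
    ring
  obtain ⟨R, hR, hR1⟩ := exists_contraction (Finsupp.linearCombination ℂ a)
    (Finsupp.linearCombination ℂ b) (norm_linearCombination_le a b hab)
  have hRk : ∀ (x : X) (v : Cn N), R (RKHS.kerFun H x v) =
      RKHS.kerFun H x (((Φ x)ᴴ).toEuclideanLin v) := by
    intro x v
    have := hR (Finsupp.single (x, v) 1)
    simpa [a, b] using this
  refine ⟨R.adjoint f, fun x => ?_, ?_⟩
  · have hx : (R.adjoint f) x = (Φ x).toEuclideanLin (f x) := ?_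
    · rw [hx]; rfl
    refine ext_inner_left ℂ fun v => ?_
    rw [← RKHS.kerFun_inner, ContinuousLinearMap.adjoint_inner_right, hRk, RKHS.kerFun_inner,
      inner_conjTranspose]
  · have h1 : ‖R‖ ≤ 1 := R.opNorm_le_bound zero_le_one fun x => by rw [one_mul]; exact hR1 x
    refine (ContinuousLinearMap.le_opNorm _ _).trans ?_
    rw [ContinuousLinearMap.adjoint.norm_map]
    nlinarith [norm_nonneg f]

end Pool.Agent.Lib.MP_86f1d3_an
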