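import Pool.Agent.Lib.MP_86f1d3_an.TMin
import Pool.Agent.Lib.MP_86f1d3_an.Continuation

/-!
# There is no certificate of rank one
-/

set_option linter.unusedSimpArgs false

open ComplexConjugate Complex Filter Topology
open scoped ComplexOrder Matrix

namespace Pool.Agent.Lib.MP_86f1d3_an

/-- The first identity for the extremal function. -/
lemma pG_eq (z : ℂ) : (-19046583 + 6348861 * I) / 2 *
    (conj θ₂ * conj γ₁ * (1 - z * conj w₂) ^ 2 - conj θ₁ * conj γ₂ * (1 - z * conj w₁) ^ 2) =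
    pG z := by
  rw [conj_θ₁, conj_θ₂, conj_γ₁, conj_γ₂, conj_w₁, conj_w₂]
  unfold pG
  ring_nf
  simp only [I_sq, I_pow_three, I_pow_four, I_pow_five, I_pow_six]
  ring

/-- The second identity for the extremal function. -/
lemma pF_eq (z : ℂ) : (-19046583 + 6348861 * I) / 2 *
    (conj θ₂ * (1 - (1 - z * conj w₁) ^ 2) * (1 - z * conj w₂) ^ 2 -
      conj θ₁ * (1 - (1 - z * conj w₂) ^ 2) * (1 - z * conj w₁) ^ 2) = pF z := by
  rw [conj_θ₁, conj_θ₂, conj_w₁, conj_w₂]
  unfold pF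
  ring_nf
  simp only [I_sq, I_pow_three, I_pow_four, I_pow_five, I_pow_six]
  ring

/-- The form `E`. -/
noncomputable def kE (z w : ℂ) : ℂ :=
  ((279214891884 : ℝ) : ℂ) + (-110357438610 + 15371030802 * I) * z +
    conj (-110357438610 + 15371030802 * I) * conj w + ((-59241546696 : ℝ) : ℂ) * (z * conj w)

lemma main_identity' (z w : ℂ) :
    pF z * conj (pF w) - pG z * conj (pG w) = pQ z * conj (pQ w) * kE z w -
      (1 - z * conj w) ^ 2 * (pG z * conj (pG w) - pS z * conj (pS w)) := by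
  rw [conj_pF, conj_pG, conj_pQ, conj_pS, main_identity]
  unfold kE
  simp only [map_add, map_mul, map_neg, map_ofNat, conj_I]
  push_cast
  ring

/-- The extremal function is determined. -/
lemma eq_of_extremal {H : dom → ℂ}
    (hK₁ : IsKernel (fun z w : dom => 1 - bergman z w * (1 - H z * conj (H w))))
    (h : form (fun z w : dom => 1 - bergman z w * (1 - H z * conj (H w)))
      ![pt₁, pt₂] ![conj θ₂, -conj θ₁] = 0) {c : ℂ} (h₁ : H pt₁ = c * γ₁)
    (h₂ : H pt₂ = c * γ₂) (z : dom) : H z * conj c * pG z = pF z := by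
  have h0 := hK₁.eq_zero_of_form _ _ h z
  simp only [Fin.sum_univ_two, Matrix.cons_val_zero, Matrix.cons_val_one, h₁, h₂, map_mul] at h0
  have n1 : 1 - (z : ℂ) * conj w₁ ≠ 0 := one_sub_mul_ne (norm_lt_of_mem z.2) (norm_lt_of_mem w₁_mem)
  have n2 : 1 - (z : ℂ) * conj w₂ ≠ 0 := one_sub_mul_ne (norm_lt_of_mem z.2) (norm_lt_of_mem w₂_mem)
  have e1 : bergman (z : ℂ) (pt₁ : ℂ) = 1 / (1 - (z : ℂ) * conj w₁) ^ 2 := rfl
  have e2 : bergman (z : ℂ) (pt₂ : ℂ) = 1 / (1 - (z : ℂ) * conj w₂) ^ 2 := rfl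
  rw [e1, e2] at h0
  rw [← pG_eq, ← pF_eq]
  generalize conj θ₁ = t₁ at *
  generalize conj θ₂ = t₂ at *
  generalize conj γ₁ = g₁ at *
  generalize conj γ₂ = g₂ at *
  generalize conj c = c' at *
  generalize H z = y at *
  generalize 1 - (z : ℂ) * conj w₁ = L₁ at *
  generalize 1 - (z : ℂ) * conj w₂ = L₂ at *
  have h3 : (L₁ ^ 2 * L₂ ^ 2) * ((1 - 1 / L₁ ^ 2 * (1 - y * (c' * g₁))) * t₂ +
      (1 - 1 / L₂ ^ 2 * (1 - y * (c' * g₂))) * -t₁) =
      (L₁ ^ 2 - (1 - y * (c' * g₁))) * L₂ ^ 2 * t₂ - (L₂ ^ 2 - (1 - y * (c' * g₂))) * L₁ ^ 2 * t₁ := by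
    field_simp
    ring
  rw [h0, mul_zero] at h3
  linear_combination -((-19046583 + 6348861 * I) / 2) * h3

/-- The kernel `E 𝔟` would be positive. -/
lemma isKernel_E {H : dom → ℂ} (h0 : H pt₀ = 0)
    (hK₁ : IsKernel (fun z w : dom => 1 - bergman z w * (1 - H z * conj (H w))))
    (hK₂ : IsKernel (fun z w : dom => ell z w * (1 - H z * conj (H w)))) :
    IsKernel (fun z w : dom => pQ z * conj (pQ w) * (kE z w * bergman z w)) := by
  obtain ⟨hf, c, hc, h₁, h₂⟩ := exists_unimodular h0 hK₁ hK₂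
  have hH := eq_of_extremal hK₁ hf h₁ h₂
  have hcc : c * conj c = 1 := by rw [mul_conj, hc]; simp
  have hHH : ∀ z w : dom, pG z * conj (pG w) * (H z * conj (H w)) = pF z * conj (pF w) := by
    intro z w
    rw [← hH z, ← hH w]
    simp only [map_mul, conj_conj]
    linear_combination (-(pG z * conj (pG w) * (H z * conj (H w)))) * hcc
  have hM : IsKernel (fun z w : dom => pS z * conj (pS w) +
      pQ z * conj (pQ w) * (kE z w * bergman z w)) := by
    refine ((isKernel_rank (fun z : dom => pG z)).mul hK₁).congr fun z w => ?_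
    have n := one_sub_mul_ne (norm_lt_of_mem z.2) (norm_lt_of_mem w.2)
    have e1 := hHH z w
    have e2 := main_identity' z w
    have e3 : bergman z w * (1 - (z : ℂ) * conj (w : ℂ)) ^ 2 = 1 := by
      unfold bergman
      field_simp
    linear_combination -(bergman z w) * e1 - bergman z w * e2 +
      (pG z * conj (pG w) - pS z * conj (pS w)) * e3
  have hQ : pQ (pt₁ : ℂ) = 0 := pQ_w₁
  have hS : pS (pt₁ : ℂ) ≠ 0 := pS_w₁_ne
  have hS' : conj (pS (pt₁ : ℂ)) ≠ 0 := by rwa [Ne, map_eq_zero]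
  refine (hM.schur pt₁ ?_).congr fun z w => ?_
  · rw [hQ]
    simp only [zero_mul, add_zero]
    exact mul_ne_zero hS hS'
  · rw [hQ]
    simp only [zero_mul, mul_zero, map_zero, add_zero]
    field_simp
    ring

/-- The set where we use analytic continuation. -/
def uSet : Set ℂ := {z | z ∈ dom ∧ pQ z ≠ 0}

lemma frequently_uSet : ∃ᶠ z in 𝓝[≠] (0 : ℂ), z ∈ uSet := by
  have h1 : ∀ᶠ z in 𝓝[≠] (0 : ℂ), z ∈ dom :=
    nhdsWithin_le_nhds (isOpen_dom.mem_nhds zero_mem_dom)
  have h2 : ∀ᶠ z in 𝓝[≠] (0 : ℂ), (24 - 28 * I) + z * ((-45 + 48 * I) + z * (27 - 27 * I)) ≠ 0 := by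
    refine nhdsWithin_le_nhds ?_
    have hc : Continuous fun z : ℂ => (24 - 28 * I) + z * ((-45 + 48 * I) + z * (27 - 27 * I)) := by
      fun_prop
    refine hc.continuousAt.eventually_ne ?_
    intro h
    have := congrArg Complex.re h
    simp at this
  have h3 : ∀ᶠ z in 𝓝[≠] (0 : ℂ), z ≠ 0 := eventually_mem_nhdsWithin
  refine Eventually.frequently ?_
  filter_upwards [h1, h2, h3] with z hz1 hz2 hz3
  exact ⟨hz1, mul_ne_zero hz3 hz2⟩

/-- **There is no strong Shimorin certificate of rank one.** -/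
theorem not_isCertificate_rankOne :
    ¬ ∃ G : dom → ℂ, IsCertificate (onDomain dom bergman) (onDomain dom ell) (rankOne G) := by
  rintro ⟨G, hG⟩
  obtain ⟨H, h0, hK₁, hK₂⟩ := normalize pt₀ (k := onDomain dom bergman) (fun z => by
      simp [onDomain, bergman, pt₀]) (fun z => by
      have := one_sub_mul_ne (norm_lt_of_mem z.2) (norm_lt_of_mem z.2)
      unfold onDomain bergman
      exact one_div_ne_zero (pow_ne_zero 2 this)) hG
  have hE := isKernel_E h0 hK₁ hK₂
  have hE2 : IsKernel (onDomain uSet fun z w => kE z w * bergman z w) := by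
    refine ((hE.comp (fun z : uSet => (⟨z, z.2.1⟩ : dom))).mul
      (isKernel_rank (fun z : uSet => 1 / pQ z))).congr fun z w => ?_
    have hz := z.2.2
    have hw : conj (pQ w) ≠ 0 := by rw [Ne, map_eq_zero]; exact w.2.2
    unfold onDomain
    simp only [map_div₀, map_one]
    field_simp
  have key := nonneg_of_isKernel 279214891884 (-59241546696) (-110357438610 + 15371030802 * I)
    (U := uSet) (fun z hz => norm_lt_of_mem hz.1) frequently_uSet hE2 (ζ := (79 + 11 * I) / 80) (by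
      rw [← sq_lt_one_iff₀ (norm_nonneg _), ← normSq_eq_norm_sq, normSq_apply]
      simp only [div_ofNat_re, div_ofNat_im, add_re, add_im, mul_re, mul_im, I_re, I_im, re_ofNat,
        im_ofNat]
      norm_num)
  rw [← normSq_eq_norm_sq, normSq_apply] at key
  simp only [div_ofNat_re, div_ofNat_im, add_re, add_im, mul_re, mul_im, I_re, I_im, re_ofNat,
    im_ofNat, neg_re, neg_im] at key
  norm_num at key

end Pool.Agent.Lib.MP_86f1d3_an
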