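import Pool.Agent.Lib.MP_86f1d3_an.Kernel

/-!
# Normalisation of rank one certificates
-/

open ComplexConjugate
open scoped ComplexOrder Matrix

namespace Pool.Agent.Lib.MP_86f1d3_an

variable {X : Type}

/-- Schur complements. -/
lemma IsKernel.schur {K : X → X → ℂ} (hK : IsKernel K) (o : X) (ho : K o o ≠ 0) :
    IsKernel (fun z w => K z w - K z o * K o w / K o o) := by
  have him := hK.diag_im o
  have hre : K o o = ((K o o).re : ℂ) := by
    apply Complex.ext <;> simp [him]
  have hoo : conj (K o o) = K o o := (hK.herm o o).symm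
  refine isKernel_of (fun z w => ?_) fun n z c => ?_
  · rw [map_sub, map_div₀, map_mul, ← hK.herm, ← hK.herm, ← hK.herm, hoo]; ring
  · set S := ∑ j, c j * K o (z j) with hS
    have hSc : ∑ i, conj (c i) * K (z i) o = conj S := by
      rw [hS, map_sum]
      refine Finset.sum_congr rfl fun i _ => ?_
      rw [map_mul, ← hK.herm]
    have h := hK.form_re_nonneg (ι := Option (Fin n)) (fun i => i.elim o z)
      (fun i => i.elim (-(S / K o o)) c)
    have e1 : form (fun z w => K z w - K z o * K o w / K o o) z c =
        form K z c - S * conj S / K o o := by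
      rw [← hSc, hS, mul_comm (∑ j, c j * K o (z j)), Finset.sum_mul_sum]
      unfold form
      rw [Finset.sum_div, ← Finset.sum_sub_distrib]
      refine Finset.sum_congr rfl fun i _ => ?_
      rw [Finset.sum_div, ← Finset.sum_sub_distrib]
      refine Finset.sum_congr rfl fun j _ => ?_
      ring
    have e2 : form K (ι := Option (Fin n)) (fun i => i.elim o z)
        (fun i => i.elim (-(S / K o o)) c) = form K z c - S * conj S / K o o := by
      unfold form
      rw [Fintype.sum_option]
      simp only [Fintype.sum_option, Option.elim_none, Option.elim_some]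
      rw [Finset.sum_add_distrib]
      have a1 : ∑ j, conj (-(S / K o o)) * c j * K o (z j) = conj (-(S / K o o)) * S := by
        rw [hS, Finset.mul_sum]
        exact Finset.sum_congr rfl fun j _ => by ring
      have a2 : ∑ i, conj (c i) * -(S / K o o) * K (z i) o = -(S / K o o) * conj S := by
        rw [← hSc, Finset.mul_sum]
        exact Finset.sum_congr rfl fun j _ => by ring
      rw [a1, a2, map_neg, map_div₀, hoo]
      field_simp
      ring
    rw [e2] at h
    rw [e1]
    exact h

/-- Every rank one certificate can be normalised at a point `o`. -/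
theorem normalize {k l : X → X → ℂ} (o : X) (hk : ∀ z, k z o = 1) (hk0 : ∀ z, k z z ≠ 0)
    {G : X → ℂ} (h : IsCertificate k l (rankOne G)) :
    ∃ F : X → ℂ, F o = 0 ∧ IsKernel (fun z w => 1 - k z w * (1 - F z * conj (F w))) ∧
      IsKernel (fun z w => l z w * (1 - F z * conj (F w))) := by
  obtain ⟨⟨hs, -⟩, h, g, hh, hg, hkh, hlg⟩ := h
  have hG : ∀ z, Complex.normSq (G z) < 1 := by
    intro z
    have h1 := hkh z z
    have h2 := hs.diag_re z
    unfold rankOne at h1 h2
    rw [Complex.mul_conj] at h1 h2
    have h3 : (1 / (1 - (Complex.normSq (G z) : ℂ))) = ((1 / (1 - Complex.normSq (G z)) : ℝ) : ℂ) := by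
      push_cast; rfl
    rw [h3, Complex.ofReal_re] at h2
    by_contra hcon
    have h4 : 1 - Complex.normSq (G z) ≤ 0 := by linarith
    have h5 : 1 / (1 - Complex.normSq (G z)) ≤ 0 := div_nonpos_of_nonneg_of_nonpos zero_le_one h4
    have h6 : 1 / (1 - Complex.normSq (G z)) = 0 := le_antisymm h5 h2
    rw [h3, h6] at h1
    exact hk0 z (by rw [h1]; simp)
  have hne : ∀ z w, 1 - G z * conj (G w) ≠ 0 := by
    intro z w h0
    have h1 : G z * conj (G w) = 1 := (sub_eq_zero.mp h0).symm
    have h2 : Complex.normSq (G z) * Complex.normSq (G w) = 1 := by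
      rw [← Complex.normSq_conj (G w), ← Complex.normSq_mul, h1]; simp
    have := hG z; have := hG w
    have := Complex.normSq_nonneg (G z); have := Complex.normSq_nonneg (G w)
    nlinarith
  have hkh' : ∀ z w, k z w * (1 - G z * conj (G w)) = 1 - h z w := by
    intro z w
    rw [hkh z w, rankOne]
    have := hne z w
    field_simp
  have hlg' : ∀ z w, l z w * (1 - G z * conj (G w)) = g z w := by
    intro z w
    rw [hlg z w, rankOne]
    have := hne z w
    field_simp
  set a := G o with ha
  have hD : ∀ z, 1 - G z * conj a ≠ 0 := fun z => hne z o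
  have hD' : ∀ z, 1 - a * conj (G z) ≠ 0 := fun z => hne o z
  have hho : ∀ z, h z o = G z * conj a := by
    intro z
    have := hkh' z o
    rw [hk z, one_mul] at this
    linear_combination this
  have hho' : ∀ z, h o z = a * conj (G z) := by
    intro z
    rw [hh.herm z o, hho z, map_mul, Complex.conj_conj]; ring
  let F : X → ℂ := fun z => (G z - a) / (1 - G z * conj a)
  have hFF : ∀ z w, 1 - F z * conj (F w) = (1 - a * conj a) * (1 - G z * conj (G w)) *
      ((1 / (1 - G z * conj a)) * conj (1 / (1 - G w * conj a))) := by
    intro z w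
    simp only [F, map_div₀, map_sub, map_mul, map_one, Complex.conj_conj]
    have h1 := hD z
    have h2 := hD' w
    have h3 : 1 - conj (G w) * a ≠ 0 := by rw [mul_comm]; exact h2
    field_simp
    ring
  have hα : 0 ≤ 1 - Complex.normSq a := by linarith [hG o]
  have hαc : (1 - a * conj a) = ((1 - Complex.normSq a : ℝ) : ℂ) := by
    rw [Complex.mul_conj]; push_cast; rfl
  have hrk := isKernel_rank (fun z => 1 / (1 - G z * conj a))
  refine ⟨F, by simp [F, ha], ?_, ?_⟩
  · have hN : IsKernel (fun z w => (1 - G z * conj a) * (1 - a * conj (G w)) -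
        (1 - a * conj a) * (1 - h z w)) := by
      by_cases ha0 : a = 0
      · refine hh.congr fun z w => ?_
        rw [ha0]; simp
      · have hoo : h o o ≠ 0 := by
          rw [hho o, ← ha]
          exact mul_ne_zero ha0 (by simpa using ha0)
        have h1 := ((hh.schur o hoo).smul hα).add (isKernel_rank (fun z => G z - a))
        refine h1.congr fun z w => ?_
        rw [hho z, hho' w, hho o, ← ha, ← hαc, map_sub]
        have hca : conj a ≠ 0 := by simpa using ha0
        field_simp
        ring
    refine (hN.mul hrk).congr fun z w => ?_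
    rw [hFF, ← mul_assoc (k z w), show k z w * ((1 - a * conj a) * (1 - G z * conj (G w))) =
      (1 - a * conj a) * (1 - h z w) by rw [← hkh']; ring]
    simp only [map_div₀, map_sub, map_mul, map_one, Complex.conj_conj]
    have h1 := hD z
    have h2 := hD' w
    have h3 : 1 - conj (G w) * a ≠ 0 := by rw [mul_comm]; exact h2
    have h4 : 1 - conj a * G z ≠ 0 := by rw [mul_comm]; exact h1
    field_simp
  · refine ((hg.smul hα).mul hrk).congr fun z w => ?_
    rw [hFF, ← hαc, ← hlg']
    ring

end Pool.Agent.Lib.MP_86f1d3_an
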