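import Pool.Agent.Lib.MP_86f1d3_an.Positive

/-!
# The two points belong to the domain
-/

set_option linter.unusedSimpArgs false

open ComplexConjugate Complex

namespace Pool.Agent.Lib.MP_86f1d3_an

lemma norm_sq_of_eq {z : ℂ} {a b : ℝ} (h : z = a + b * I) : ‖z‖ ^ 2 = a ^ 2 + b ^ 2 := by
  rw [h, Complex.sq_norm, Complex.normSq_add_mul_I]

lemma w₁_seg (t : ℝ) (ht0 : 0 ≤ t) (ht1 : t ≤ 1) : (t : ℂ) * w₁ ∈ dom₀ := by
  have hw : ‖w₁‖ < 1 := by
    have h : ‖w₁‖ ^ 2 = ((8 / 9) : ℝ) ^ 2 + ((4 / 9) : ℝ) ^ 2 :=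
      norm_sq_of_eq (by unfold w₁; push_cast; ring)
    nlinarith [norm_nonneg w₁]
  have hF : pF (t * w₁) = ((((-23701896) * t + (121464544 / 3) * t ^ 2 + (-4707004288 / 243) * t ^ 3 + (23394903040 / 6561) * t ^ 4) : ℝ) : ℂ) +
      (((10275192 * t + (3312976 / 9) * t ^ 2 + (-76203392 / 9) * t ^ 3 + (30740126720 / 6561) * t ^ 4) : ℝ) : ℂ) * I := by
    unfold pF w₁
    push_cast
    ring_nf
    simp only [I_sq, I_pow_three, I_pow_four, show I ^ 5 = I from by rw [pow_succ, I_pow_four, one_mul]]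
    ring
  have hG : pG (t * w₁) = ((((-10881660) + (62661704 / 9) * t + (458992 / 9) * t ^ 2) : ℝ) : ℂ) +
      ((((-913944) + 1122008 * t + (149677568 / 27) * t ^ 2) : ℝ) : ℂ) * I := by
    unfold pG w₁
    push_cast
    ring_nf
    simp only [I_sq, I_pow_three, I_pow_four, show I ^ 5 = I from by rw [pow_succ, I_pow_four, one_mul]]
    ring
  have hQ : pQ (t * w₁) = ((((304 / 9) * t + (-1744 / 27) * t ^ 2 + (832 / 27) * t ^ 3) : ℝ) : ℂ) +
      ((((-128 / 9) * t + (-64 / 9) * t ^ 2 + (64 / 3) * t ^ 3) : ℝ) : ℂ) * I := by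
    unfold pQ w₁
    push_cast
    ring_nf
    simp only [I_sq, I_pow_three, I_pow_four, show I ^ 5 = I from by rw [pow_succ, I_pow_four, one_mul]]
    ring
  refine ⟨?_, ?_⟩
  · rw [norm_mul, Complex.norm_real, Real.norm_of_nonneg ht0]
    nlinarith [norm_nonneg w₁]
  · rw [norm_sq_of_eq hF, norm_sq_of_eq hG, norm_sq_of_eq hQ]
    obtain ⟨s, hs⟩ : ∃ s, s = 1 - t := ⟨_, rfl⟩
    have hs0 : 0 ≤ s := by linarith
    have key : ((-10881660) + (62661704 / 9) * t + (458992 / 9) * t ^ 2) ^ 2 + ((-913944) + 1122008 * t + (149677568 / 27) * t ^ 2) ^ 2 -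
      (((-23701896) * t + (121464544 / 3) * t ^ 2 + (-4707004288 / 243) * t ^ 3 + (23394903040 / 6561) * t ^ 4) ^ 2 + (10275192 * t + (3312976 / 9) * t ^ 2 + (-76203392 / 9) * t ^ 3 + (30740126720 / 6561) * t ^ 4) ^ 2 +
      4900000000 * (((304 / 9) * t + (-1744 / 27) * t ^ 2 + (832 / 27) * t ^ 3) ^ 2 + ((-128 / 9) * t + (-64 / 9) * t ^ 2 + (64 / 3) * t ^ 3) ^ 2)) =
      119245817990736 * (t ^ 0 * s ^ 8) + (2401171344934592 / 3) * (t ^ 1 * s ^ 7) + (131900409981573248 / 81) * (t ^ 2 * s ^ 6) + (385212409423148480 / 243) * (t ^ 3 * s ^ 5) + (21216501368220640 / 27) * (t ^ 4 * s ^ 4) + (139560611269993664 / 729) * (t ^ 5 * s ^ 3) + (545963413215725056 / 59049) * (t ^ 6 * s ^ 2) + (458556853012069184 / 1594323) * (t ^ 7 * s ^ 1) + (35024913227351440 / 43046721) * (t ^ 8 * s ^ 0) := by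
      rw [hs]; ring
    have hpos : 0 < 119245817990736 * (t ^ 0 * s ^ 8) + (35024913227351440 / 43046721) * (t ^ 8 * s ^ 0) := by
      rcases eq_or_lt_of_le ht0 with h | h
      · have : s = 1 := by linarith
        rw [← h, this]; norm_num
      · positivity
    have hrest : 0 ≤ (2401171344934592 / 3) * (t ^ 1 * s ^ 7) + (131900409981573248 / 81) * (t ^ 2 * s ^ 6) + (385212409423148480 / 243) * (t ^ 3 * s ^ 5) + (21216501368220640 / 27) * (t ^ 4 * s ^ 4) + (139560611269993664 / 729) * (t ^ 5 * s ^ 3) + (545963413215725056 / 59049) * (t ^ 6 * s ^ 2) + (458556853012069184 / 1594323) * (t ^ 7 * s ^ 1) := by positivity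
    linarith

lemma w₁_mem : w₁ ∈ dom := mem_dom_of_segment w₁_seg

lemma w₂_seg (t : ℝ) (ht0 : 0 ≤ t) (ht1 : t ≤ 1) : (t : ℂ) * w₂ ∈ dom₀ := by
  have hw : ‖w₂‖ < 1 := by
    have h : ‖w₂‖ ^ 2 = ((5 / 6) : ℝ) ^ 2 + ((-1 / 2) : ℝ) ^ 2 :=
      norm_sq_of_eq (by unfold w₂; push_cast; ring)
    nlinarith [norm_nonneg w₂]
  have hF : pF (t * w₂) = ((((-3966462) * t + (-32157679 / 2) * t ^ 2 + (152461763 / 9) * t ^ 3 + (-435643513 / 81) * t ^ 4) : ℝ) : ℂ) +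
      (((24948540 * t + (-35221971) * t ^ 2 + (91696402 / 9) * t ^ 3 + (-19871351 / 81) * t ^ 4) : ℝ) : ℂ) * I := by
    unfold pF w₂
    push_cast
    ring_nf
    simp only [I_sq, I_pow_three, I_pow_four, show I ^ 5 = I from by rw [pow_succ, I_pow_four, one_mul]]
    ring
  have hG : pG (t * w₂) = ((((-10881660) + (13742768 / 3) * t + (14344502 / 3) * t ^ 2) : ℝ) : ℂ) +
      ((((-913944) + (-15464806 / 3) * t + (-4578683 / 2) * t ^ 2) : ℝ) : ℂ) * I := by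
    unfold pG w₂
    push_cast
    ring_nf
    simp only [I_sq, I_pow_three, I_pow_four, show I ^ 5 = I from by rw [pow_succ, I_pow_four, one_mul]]
    ring
  have hQ : pQ (t * w₂) = (((6 * t + 20 * t ^ 2 + (-26) * t ^ 3) : ℝ) : ℂ) +
      ((((-106 / 3) * t + (353 / 6) * t ^ 2 + (-47 / 2) * t ^ 3) : ℝ) : ℂ) * I := by
    unfold pQ w₂
    push_cast
    ring_nf
    simp only [I_sq, I_pow_three, I_pow_four, show I ^ 5 = I from by rw [pow_succ, I_pow_four, one_mul]]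
    ring
  refine ⟨?_, ?_⟩
  · rw [norm_mul, Complex.norm_real, Real.norm_of_nonneg ht0]
    nlinarith [norm_nonneg w₂]
  · rw [norm_sq_of_eq hF, norm_sq_of_eq hG, norm_sq_of_eq hQ]
    obtain ⟨s, hs⟩ : ∃ s, s = 1 - t := ⟨_, rfl⟩
    have hs0 : 0 ≤ s := by linarith
    have key : ((-10881660) + (13742768 / 3) * t + (14344502 / 3) * t ^ 2) ^ 2 + ((-913944) + (-15464806 / 3) * t + (-4578683 / 2) * t ^ 2) ^ 2 -
      (((-3966462) * t + (-32157679 / 2) * t ^ 2 + (152461763 / 9) * t ^ 3 + (-435643513 / 81) * t ^ 4) ^ 2 + (24948540 * t + (-35221971) * t ^ 2 + (91696402 / 9) * t ^ 3 + (-19871351 / 81) * t ^ 4) ^ 2 +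
      4900000000 * ((6 * t + 20 * t ^ 2 + (-26) * t ^ 3) ^ 2 + ((-106 / 3) * t + (353 / 6) * t ^ 2 + (-47 / 2) * t ^ 3) ^ 2)) =
      119245817990736 * (t ^ 0 * s ^ 8) + 863693102472544 * (t ^ 1 * s ^ 7) + (18091746975564712 / 9) * (t ^ 2 * s ^ 6) + (20861125249369804 / 9) * (t ^ 3 * s ^ 5) + (13033093816581065 / 9) * (t ^ 4 * s ^ 4) + (4648884859806257 / 9) * (t ^ 5 * s ^ 3) + (2663765225213341 / 27) * (t ^ 6 * s ^ 2) + (5217929377269797 / 729) * (t ^ 7 * s ^ 1) + (593339259259264 / 6561) * (t ^ 8 * s ^ 0) := by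
      rw [hs]; ring
    have hpos : 0 < 119245817990736 * (t ^ 0 * s ^ 8) + (593339259259264 / 6561) * (t ^ 8 * s ^ 0) := by
      rcases eq_or_lt_of_le ht0 with h | h
      · have : s = 1 := by linarith
        rw [← h, this]; norm_num
      · positivity
    have hrest : 0 ≤ 863693102472544 * (t ^ 1 * s ^ 7) + (18091746975564712 / 9) * (t ^ 2 * s ^ 6) + (20861125249369804 / 9) * (t ^ 3 * s ^ 5) + (13033093816581065 / 9) * (t ^ 4 * s ^ 4) + (4648884859806257 / 9) * (t ^ 5 * s ^ 3) + (2663765225213341 / 27) * (t ^ 6 * s ^ 2) + (5217929377269797 / 729) * (t ^ 7 * s ^ 1) := by positivity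
    linarith

lemma w₂_mem : w₂ ∈ dom := mem_dom_of_segment w₂_seg

end Pool.Agent.Lib.MP_86f1d3_an
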