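import Pool.Agent.Lib.MP_86f1d3_an.Multiplier

/-!
# The kernel `1 / (1 - ⟨u(x), u(y)⟩)` is a complete Pick kernel
-/

open ComplexConjugate
open scoped ComplexOrder Matrix InnerProductSpace

namespace Pool.Agent.Lib.MP_86f1d3_an

/-- A contraction that maps one family of vectors to another one. -/
lemma exists_contraction_of_gram {Y H₁ H₂ : Type} [NormedAddCommGroup H₁] [InnerProductSpace ℂ H₁]
    [CompleteSpace H₁] [NormedAddCommGroup H₂] [InnerProductSpace ℂ H₂] [CompleteSpace H₂]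
    (a : Y → H₁) (b : Y → H₂) (h : IsKernel (fun p q => ⟪a p, a q⟫_ℂ - ⟪b p, b q⟫_ℂ)) :
    ∃ R : H₁ →L[ℂ] H₂, (∀ p, R (a p) = b p) ∧ ∀ x, ‖R x‖ ≤ ‖x‖ := by
  obtain ⟨R, hR, hR1⟩ := exists_contraction (Finsupp.linearCombination ℂ a)
    (Finsupp.linearCombination ℂ b) (norm_linearCombination_le a b h)
  refine ⟨R, fun p => ?_, hR1⟩
  simpa using hR (Finsupp.single p 1)

/-- The defect kernel of a contraction. -/
lemma isKernel_defect {Y H₁ H₂ : Type} [NormedAddCommGroup H₁] [InnerProductSpace ℂ H₁]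
    [NormedAddCommGroup H₂] [InnerProductSpace ℂ H₂] (R : H₁ →L[ℂ] H₂) (hR : ∀ x, ‖R x‖ ≤ ‖x‖)
    (a : Y → H₁) : IsKernel (fun p q => ⟪a p, a q⟫_ℂ - ⟪R (a p), R (a q)⟫_ℂ) := by
  refine isKernel_of (fun p q => ?_) fun n z c => ?_
  · rw [map_sub, inner_conj_symm, inner_conj_symm]
  · have e : form (fun p q => ⟪a p, a q⟫_ℂ - ⟪R (a p), R (a q)⟫_ℂ) z c =
        ⟪∑ i, c i • a (z i), ∑ i, c i • a (z i)⟫_ℂ -
        ⟪R (∑ i, c i • a (z i)), R (∑ i, c i • a (z i))⟫_ℂ := by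
      rw [map_sum]
      rw [sum_inner, sum_inner, ← Finset.sum_sub_distrib]
      unfold form
      refine Finset.sum_congr rfl fun i _ => ?_
      rw [inner_sum, inner_sum, ← Finset.sum_sub_distrib]
      refine Finset.sum_congr rfl fun j _ => ?_
      rw [map_smul, map_smul, inner_smul_left, inner_smul_right, inner_smul_left,
        inner_smul_right]
      ring
    rw [e, Complex.sub_re, inner_self_eq_norm_sq_to_K, inner_self_eq_norm_sq_to_K]
    simp only [Complex.coe_algebraMap, ← Complex.ofReal_pow, Complex.ofReal_re]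
    have := hR (∑ i, c i • a (z i))
    have h0 := norm_nonneg (R (∑ i, c i • a (z i)))
    nlinarith

section realization

variable {X ι : Type} [Fintype ι] (u : X → ι → ℂ) (N : ℕ) (G : Type) [NormedAddCommGroup G]
  [InnerProductSpace ℂ G]

/-- The kernel `⟨u(x), u(y)⟩`. -/
noncomputable def gramU {X ι : Type} [Fintype ι] (u : X → ι → ℂ) (x y : X) : ℂ :=
  ∑ k, u x k * conj (u y k)

lemma isKernel_gramU : IsKernel (gramU u) :=
  IsKernel.sum Finset.univ fun k _ => isKernel_rank (fun x => u x k)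

/-- The big space. -/
abbrev Big (ι : Type) [Fintype ι] (N : ℕ) (G : Type) [NormedAddCommGroup G] : Type :=
  WithLp 2 (Cn N × PiLp 2 (fun _ : ι => G))

/-- The map `(v, g) ↦ (v, (conj (u_k(x)) g)_k)`. -/
noncomputable def emb (x : X) : (Cn N × G) →ₗ[ℂ] Big ι N G where
  toFun p := WithLp.toLp 2 (p.1, WithLp.toLp 2 (fun k => conj (u x k) • p.2))
  map_add' p q := by
    have : (fun k => conj (u x k) • (p + q).2) = (fun k => conj (u x k) • p.2) +
        (fun k => conj (u x k) • q.2) := by funext k; exact smul_add _ _ _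
    rw [this]; rfl
  map_smul' c p := by
    have : (fun k => conj (u x k) • (c • p).2) = c • (fun k => conj (u x k) • p.2) := by
      funext k; exact smul_comm _ _ _
    rw [this]; rfl

lemma inner_emb (x y : X) (p q : Cn N × G) :
    ⟪emb u N G x p, emb u N G y q⟫_ℂ = ⟪p.1, q.1⟫_ℂ + gramU u x y * ⟪p.2, q.2⟫_ℂ := by
  rw [WithLp.prod_inner_apply]
  have h1 : (emb u N G x p).ofLp.1 = p.1 := rfl
  have h2 : (emb u N G y q).ofLp.1 = q.1 := rfl
  have h3 : (emb u N G x p).ofLp.2 = WithLp.toLp 2 (fun k => conj (u x k) • p.2) := rfl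
  have h4 : (emb u N G y q).ofLp.2 = WithLp.toLp 2 (fun k => conj (u y k) • q.2) := rfl
  rw [h1, h2, h3, h4, PiLp.inner_apply, gramU, Finset.sum_mul]
  congr 1
  refine Finset.sum_congr rfl fun k _ => ?_
  rw [inner_smul_left, inner_smul_right, Complex.conj_conj]
  ring

variable [FiniteDimensional ℂ G]

/-- The lurking isometry argument, first part: the transfer functions. -/
lemma exists_transfer (hu : ∀ x, (gramU u x x).re < 1)
    (R : Big ι N G →L[ℂ] WithLp 2 (Cn N × G)) (hR : ∀ y, ‖R y‖ ≤ ‖y‖) :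
    ∃ (Γ : X → (Cn N →ₗ[ℂ] G)) (T : X → (Cn N →ₗ[ℂ] Cn N)),
      (∀ x v, R (emb u N G x (v, Γ x v)) = WithLp.toLp 2 (T x v, Γ x v)) ∧
      ∀ x v g t, R (emb u N G x (v, g)) = WithLp.toLp 2 (t, g) → g = Γ x v ∧ t = T x v := by
  classical
  let P₁ : WithLp 2 (Cn N × G) →ₗ[ℂ] Cn N :=
    LinearMap.fst ℂ (Cn N) G ∘ₗ (WithLp.linearEquiv 2 ℂ (Cn N × G)).toLinearMap
  let P₂ : WithLp 2 (Cn N × G) →ₗ[ℂ] G :=
    LinearMap.snd ℂ (Cn N) G ∘ₗ (WithLp.linearEquiv 2 ℂ (Cn N × G)).toLinearMap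
  let D : X → (G →ₗ[ℂ] G) := fun x =>
    P₂ ∘ₗ R.toLinearMap ∘ₗ emb u N G x ∘ₗ LinearMap.inr ℂ (Cn N) G
  let C : X → (Cn N →ₗ[ℂ] G) := fun x =>
    P₂ ∘ₗ R.toLinearMap ∘ₗ emb u N G x ∘ₗ LinearMap.inl ℂ (Cn N) G
  have hDlt : ∀ x g, g ≠ 0 → ‖D x g‖ < ‖g‖ := by
    intro x g hg
    have h1 : ‖D x g‖ ≤ ‖R (emb u N G x (0, g))‖ := WithLp.norm_snd_le _ _
    have h2 := hR (emb u N G x (0, g))
    have h3 : ‖emb u N G x (0, g)‖ ^ 2 = (gramU u x x).re * ‖g‖ ^ 2 := by
      have h := inner_emb u N G x x (0, g) (0, g)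
      rw [inner_self_eq_norm_sq_to_K, inner_self_eq_norm_sq_to_K (𝕜 := ℂ) g, inner_zero_left,
        zero_add] at h
      have h' := congrArg Complex.re h
      simp only [Complex.coe_algebraMap, ← Complex.ofReal_pow, Complex.ofReal_re,
        Complex.re_mul_ofReal] at h'
      exact h'
    have hg' : 0 < ‖g‖ := norm_pos_iff.mpr hg
    have h4 : ‖emb u N G x (0, g)‖ ^ 2 < ‖g‖ ^ 2 := by
      rw [h3]
      have := hu x
      have : 0 < ‖g‖ ^ 2 := by positivity
      nlinarith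
    have h5 : ‖emb u N G x (0, g)‖ < ‖g‖ := lt_of_pow_lt_pow_left₀ 2 hg'.le h4
    linarith
  have hinj : ∀ x, Function.Injective (LinearMap.id - D x : G →ₗ[ℂ] G) := by
    intro x
    rw [← LinearMap.ker_eq_bot, LinearMap.ker_eq_bot']
    intro g hg
    by_contra h0
    have h1 : g = D x g := by
      have : g - D x g = 0 := hg
      exact sub_eq_zero.mp this
    have h2 := hDlt x g h0
    rw [← h1] at h2
    exact lt_irrefl _ h2
  let L : X → (G ≃ₗ[ℂ] G) := fun x => LinearEquiv.ofInjectiveEndo _ (hinj x)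
  have hL : ∀ x g, L x g = g - D x g := fun x g => rfl
  let Γ : X → (Cn N →ₗ[ℂ] G) := fun x => (L x).symm.toLinearMap ∘ₗ C x
  have hsplit : ∀ x v g, P₂ (R (emb u N G x (v, g))) = C x v + D x g := by
    intro x v g
    have : ((v, g) : Cn N × G) = (v, 0) + (0, g) := by simp
    rw [this, map_add, map_add, map_add]
    rfl
  have hΓ : ∀ x v, P₂ (R (emb u N G x (v, Γ x v))) = Γ x v := by
    intro x v
    rw [hsplit]
    have h1 : L x (Γ x v) = C x v := (L x).apply_symm_apply _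
    rw [hL] at h1
    rw [← h1]; abel
  let T : X → (Cn N →ₗ[ℂ] Cn N) := fun x =>
    P₁ ∘ₗ R.toLinearMap ∘ₗ emb u N G x ∘ₗ (LinearMap.prod LinearMap.id (Γ x))
  refine ⟨Γ, T, fun x v => ?_, fun x v g t h => ?_⟩
  · have h1 := hΓ x v
    have h2 : P₁ (R (emb u N G x (v, Γ x v))) = T x v := rfl
    have h3 : R (emb u N G x (v, Γ x v)) =
        WithLp.toLp 2 (P₁ (R (emb u N G x (v, Γ x v))), P₂ (R (emb u N G x (v, Γ x v)))) := rfl
    rw [h1, h2] at h3
    exact h3
  · have h1 : P₂ (R (emb u N G x (v, g))) = g := by rw [h]; rfl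
    have h2 : P₁ (R (emb u N G x (v, g))) = t := by rw [h]; rfl
    have h3 : g = Γ x v := by
      rw [hsplit] at h1
      have h4 : L x g = C x v := by rw [hL]; nth_rewrite 1 [← h1]; abel
      have h5 : (L x).symm (L x g) = (L x).symm (C x v) := by rw [h4]
      rwa [LinearEquiv.symm_apply_apply] at h5
    refine ⟨h3, ?_⟩
    rw [← h2, h3]; rfl

omit [FiniteDimensional ℂ G] in
lemma isKernel_transfer (hu : ∀ x, (gramU u x x).re < 1)
    (R : Big ι N G →L[ℂ] WithLp 2 (Cn N × G)) (hR : ∀ y, ‖R y‖ ≤ ‖y‖)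
    (Γ : X → (Cn N →ₗ[ℂ] G)) (T : X → (Cn N →ₗ[ℂ] Cn N))
    (hT : ∀ x v, R (emb u N G x (v, Γ x v)) = WithLp.toLp 2 (T x v, Γ x v)) :
    IsKernel (fun p q : X × Cn N => (1 / (1 - gramU u p.1 q.1)) *
      (⟪p.2, q.2⟫_ℂ - ⟪T p.1 p.2, T q.1 q.2⟫_ℂ)) := by
  have hA := isKernel_gramU u
  have hs := (hA.inv_one_sub hu).comp (Prod.fst : X × Cn N → X)
  have hd := isKernel_defect R hR (fun p : X × Cn N => emb u N G p.1 (p.2, Γ p.1 p.2))
  have hg := isKernel_gram (fun p : X × Cn N => Γ p.1 p.2)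
  refine ((hs.mul hd).add hg).congr fun p q => ?_
  rw [hT, hT, inner_emb, WithLp.prod_inner_apply]
  have hne : 1 - gramU u p.1 q.1 ≠ 0 := by
    intro h0
    have h1 := hA.norm_lt_one (hu p.1) (hu q.1)
    rw [sub_eq_zero] at h0
    rw [← h0] at h1
    simp at h1
  simp only
  field_simp
  ring

end realization

lemma inner_toEuclideanLin {N : ℕ} (A : Matrix (Fin N) (Fin N) ℂ) (v w : Cn N) :
    ⟪v, A.toEuclideanLin w⟫_ℂ = ∑ a, ∑ c, conj (v a) * w c * A a c := by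
  rw [PiLp.inner_apply]
  refine Finset.sum_congr rfl fun a _ => ?_
  have : (A.toEuclideanLin w) a = ∑ c, A a c * w c := by
    rw [Matrix.toEuclideanLin_apply]; rfl
  rw [this, RCLike.inner_apply, Finset.sum_mul]
  refine Finset.sum_congr rfl fun c _ => ?_
  ring

lemma inner_block {N : ℕ} (A B : Matrix (Fin N) (Fin N) ℂ) (v w : Cn N) :
    ∑ a, ∑ c, conj (v a) * w c * (1 - A * Bᴴ) a c =
      ⟪v, w⟫_ℂ - ⟪(Aᴴ).toEuclideanLin v, (Bᴴ).toEuclideanLin w⟫_ℂ := by
  rw [inner_conjTranspose, ← inner_toEuclideanLin, map_sub, LinearMap.sub_apply, inner_sub_right]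
  congr 1
  · rw [inner_toEuclideanLin, PiLp.inner_apply]
    refine Finset.sum_congr rfl fun a _ => ?_
    simp only [Matrix.one_apply, mul_ite, mul_one, mul_zero, Finset.sum_ite_eq, Finset.mem_univ,
      if_true, RCLike.inner_apply]
    ring
  · congr 1
    rw [Matrix.toEuclideanLin_apply, Matrix.toEuclideanLin_apply, Matrix.toEuclideanLin_apply,
      Matrix.mulVec_mulVec]

/-- **The complete Pick property.** -/
theorem isCompletePick_gramU {X ι : Type} [Fintype ι] (u : X → ι → ℂ)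
    (hu : ∀ x, (gramU u x x).re < 1) : IsCompletePick (fun x y => 1 / (1 - gramU u x y)) := by
  classical
  have hA := isKernel_gramU u
  have hne : ∀ x y, 1 - gramU u x y ≠ 0 := by
    intro x y h0
    have h1 := hA.norm_lt_one (hu x) (hu y)
    rw [sub_eq_zero] at h0
    rw [← h0] at h1
    simp at h1
  refine ⟨hA.inv_one_sub hu, fun n N _ _ z W hW => ?_⟩
  obtain ⟨m, b, hb⟩ := Matrix.posSemidef_iff_eq_sum_vecMulVec.mp hW
  let G := EuclideanSpace ℂ (Fin m)
  let γ : Fin n × Cn N → G := fun p => WithLp.toLp 2 (fun k => ∑ a, conj (b k (p.1, a)) * p.2 a)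
  have hγ : ∀ p q : Fin n × Cn N, ⟪γ p, γ q⟫_ℂ = 1 / (1 - gramU u (z p.1) (z q.1)) *
      (⟪p.2, q.2⟫_ℂ -
        ⟪((W p.1)ᴴ).toEuclideanLin p.2, ((W q.1)ᴴ).toEuclideanLin q.2⟫_ℂ) := by
    intro p q
    rw [← inner_block, PiLp.inner_apply, Finset.mul_sum]
    have hP : ∀ a c, ∑ k, b k (p.1, a) * conj (b k (q.1, c)) =
        1 / (1 - gramU u (z p.1) (z q.1)) * (1 - W p.1 * (W q.1)ᴴ) a c := by
      intro a c
      have h1 := congrFun (congrFun hb (p.1, a)) (q.1, c)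
      rw [Matrix.of_apply] at h1
      rw [h1, Matrix.sum_apply]
      rfl
    have e1 : ∀ k, ⟪(γ p) k, (γ q) k⟫_ℂ = ∑ a, ∑ c, conj (p.2 a) * q.2 c *
        (b k (p.1, a) * conj (b k (q.1, c))) := by
      intro k
      rw [RCLike.inner_apply]
      show (∑ c, conj (b k (q.1, c)) * q.2 c) * conj (∑ a, conj (b k (p.1, a)) * p.2 a) = _
      rw [map_sum, mul_comm, Finset.sum_mul_sum]
      refine Finset.sum_congr rfl fun a _ => Finset.sum_congr rfl fun c _ => ?_
      rw [map_mul, Complex.conj_conj]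
      ring
    simp_rw [e1]
    rw [Finset.sum_comm]
    refine Finset.sum_congr rfl fun a _ => ?_
    rw [Finset.sum_comm, Finset.mul_sum]
    refine Finset.sum_congr rfl fun c _ => ?_
    rw [← Finset.mul_sum, hP]
    ring
  have hgram : IsKernel (fun p q : Fin n × Cn N =>
      ⟪emb u N G (z p.1) (p.2, γ p), emb u N G (z q.1) (q.2, γ q)⟫_ℂ -
      ⟪(WithLp.toLp 2 (((W p.1)ᴴ).toEuclideanLin p.2, γ p) : WithLp 2 (Cn N × G)),
        WithLp.toLp 2 (((W q.1)ᴴ).toEuclideanLin q.2, γ q)⟫_ℂ) := by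
    refine isKernel_zero.congr fun p q => ?_
    rw [inner_emb, WithLp.prod_inner_apply]
    simp only [hγ]
    have := hne (z p.1) (z q.1)
    field_simp
    ring
  obtain ⟨R, hRab, hR⟩ := exists_contraction_of_gram _ _ hgram
  obtain ⟨Γ, T, hT, hun⟩ := exists_transfer u N G hu R hR
  have hint : ∀ i v, T (z i) v = ((W i)ᴴ).toEuclideanLin v := fun i v =>
    ((hun (z i) v (γ (i, v)) _ (hRab (i, v))).2).symm
  let Φ : X → Matrix (Fin N) (Fin N) ℂ := fun x =>
    Matrix.toEuclideanLin.symm (LinearMap.adjoint (T x))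
  have hΦ : ∀ x, ((Φ x)ᴴ).toEuclideanLin = T x := by
    intro x
    rw [Matrix.toEuclideanLin_conjTranspose_eq_adjoint, LinearEquiv.apply_symm_apply,
      LinearMap.adjoint_adjoint]
  refine ⟨Φ, isContractiveMultiplier_of ?_, fun i => ?_⟩
  · refine (isKernel_transfer u N G hu R hR Γ T hT).congr fun p q => ?_
    rw [hΦ, hΦ]
  · have h1 : T (z i) = ((W i)ᴴ).toEuclideanLin := LinearMap.ext (hint i)
    show Matrix.toEuclideanLin.symm (LinearMap.adjoint (T (z i))) = W i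
    rw [h1, Matrix.toEuclideanLin_conjTranspose_eq_adjoint, LinearMap.adjoint_adjoint,
      LinearEquiv.symm_apply_apply]

end Pool.Agent.Lib.MP_86f1d3_an
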