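import Pool.Agent.Lib.MP_86f1d3_an.Data
import Pool.Agent.Lib.MP_86f1d3_an.Pick

/-!
# The strong Shimorin certificate of the counterexample
-/

open ComplexConjugate Complex
open scoped ComplexOrder Matrix

namespace Pool.Agent.Lib.MP_86f1d3_an

/-- The open set in which the certificate lives. -/
def dom₀ : Set ℂ := {z | ‖z‖ < 1 ∧ ‖pF z‖ ^ 2 + 4900000000 * ‖pQ z‖ ^ 2 < ‖pG z‖ ^ 2}

/-- The domain of the counterexample. -/
def dom : Set ℂ := connectedComponentIn dom₀ 0

lemma continuous_pF : Continuous pF := by unfold pF; fun_prop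
lemma continuous_pG : Continuous pG := by unfold pG; fun_prop
lemma continuous_pQ : Continuous pQ := by unfold pQ; fun_prop
lemma differentiable_pF : Differentiable ℂ pF := by unfold pF; fun_prop
lemma differentiable_pG : Differentiable ℂ pG := by unfold pG; fun_prop
lemma differentiable_pQ : Differentiable ℂ pQ := by unfold pQ; fun_prop

lemma isOpen_dom₀ : IsOpen dom₀ := by
  have h1 := continuous_pF
  have h2 := continuous_pG
  have h3 := continuous_pQ
  have e : dom₀ = {z | ‖z‖ < 1} ∩ {z | ‖pF z‖ ^ 2 + 4900000000 * ‖pQ z‖ ^ 2 < ‖pG z‖ ^ 2} := rfl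
  rw [e]
  refine (isOpen_lt continuous_norm continuous_const).inter (isOpen_lt ?_ ?_)
  · fun_prop
  · fun_prop

lemma zero_mem_dom₀ : (0 : ℂ) ∈ dom₀ := by
  refine ⟨by simp, ?_⟩
  have h1 : pF 0 = 0 := by simp [pF]
  have h2 : pQ 0 = 0 := by simp [pQ]
  have h3 : pG 0 ≠ 0 := by
    intro h
    have := congrArg Complex.re h
    simp [pG] at this
  rw [h1, h2]
  have : 0 < ‖pG 0‖ := norm_pos_iff.mpr h3
  simp only [norm_zero]
  have : 0 < ‖pG 0‖ ^ 2 := by positivity
  linarith

lemma isOpen_dom : IsOpen dom := isOpen_dom₀.connectedComponentIn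

lemma isConnected_dom : IsConnected dom := isConnected_connectedComponentIn_iff.mpr zero_mem_dom₀

lemma zero_mem_dom : (0 : ℂ) ∈ dom := mem_connectedComponentIn zero_mem_dom₀

lemma dom_subset : dom ⊆ dom₀ := connectedComponentIn_subset _ _

lemma norm_lt_of_mem {z : ℂ} (hz : z ∈ dom) : ‖z‖ < 1 := (dom_subset hz).1

lemma pG_ne_zero {z : ℂ} (hz : z ∈ dom) : pG z ≠ 0 := by
  intro h
  have := (dom_subset hz).2
  rw [h] at this
  have h1 : 0 ≤ ‖pF z‖ ^ 2 := by positivity
  have h2 : 0 ≤ ‖pQ z‖ ^ 2 := by positivity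
  simp only [norm_zero] at this
  nlinarith

lemma mem_dom_of_segment {w : ℂ} (h : ∀ t : ℝ, 0 ≤ t → t ≤ 1 → (t : ℂ) * w ∈ dom₀) : w ∈ dom := by
  have hseg : IsPreconnected ((fun t : ℝ => (t : ℂ) * w) '' Set.Icc 0 1) :=
    isPreconnected_Icc.image _ (by fun_prop)
  have hsub : ((fun t : ℝ => (t : ℂ) * w) '' Set.Icc 0 1) ⊆ dom₀ := by
    rintro _ ⟨t, ht, rfl⟩
    exact h t ht.1 ht.2
  have h0 : (0 : ℂ) ∈ ((fun t : ℝ => (t : ℂ) * w) '' Set.Icc 0 1) := ⟨0, by simp, by simp⟩
  have := hseg.subset_connectedComponentIn h0 hsub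
  exact this ⟨1, by simp, by simp⟩

/-- The kernel `A`. -/
noncomputable def kA (z w : ℂ) : ℂ :=
  (pF z * conj (pF w) + 4900000000 * (pQ z * conj (pQ w))) / (pG z * conj (pG w))

/-- The kernel `ℓ = 1 / (1 - A)`. -/
noncomputable def ell (z w : ℂ) : ℂ := 1 / (1 - kA z w)

/-- The map into the ball. -/
noncomputable def uu (z : dom) : Fin 2 → ℂ := ![pF z / pG z, 70000 * pQ z / pG z]

lemma gramU_uu (z w : dom) : gramU uu z w = kA z w := by
  unfold gramU uu kA
  have h1 := pG_ne_zero z.2
  have h2 : conj (pG w) ≠ 0 := by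
    rw [Ne, map_eq_zero]; exact pG_ne_zero w.2
  simp only [Fin.sum_univ_two, Matrix.cons_val_zero, Matrix.cons_val_one, map_div₀, map_mul,
    map_ofNat]
  field_simp
  ring

lemma kA_diag_lt (z : dom) : (gramU uu z z).re < 1 := by
  rw [gramU_uu]
  have h := (dom_subset z.2).2
  have hG := pG_ne_zero z.2
  have hpos : 0 < ‖pG z‖ ^ 2 := by
    have := norm_pos_iff.mpr hG
    positivity
  have e : kA z z = (((‖pF z‖ ^ 2 + 4900000000 * ‖pQ z‖ ^ 2) / ‖pG z‖ ^ 2 : ℝ) : ℂ) := by
    unfold kA
    rw [mul_conj, mul_conj, mul_conj, normSq_eq_norm_sq, normSq_eq_norm_sq, normSq_eq_norm_sq]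
    push_cast; rfl
  rw [e, Complex.ofReal_re, div_lt_one hpos]
  exact h

lemma one_sub_kA_ne (z w : dom) : 1 - kA z w ≠ 0 := by
  intro h0
  have h1 := (isKernel_gramU uu).norm_lt_one (kA_diag_lt z) (kA_diag_lt w)
  rw [gramU_uu, ← sub_eq_zero.mp h0] at h1
  simp at h1

lemma isCompletePick_ell : IsCompletePick (onDomain dom ell) := by
  have h := isCompletePick_gramU uu kA_diag_lt
  have e : (fun x y => 1 / (1 - gramU uu x y)) = onDomain dom ell := by
    funext z w
    rw [gramU_uu]; rfl
  rw [e] at h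
  exact h

lemma one_sub_mul_ne {z w : ℂ} (hz : ‖z‖ < 1) (hw : ‖w‖ < 1) : 1 - z * conj w ≠ 0 := by
  intro h0
  have h1 : ‖z * conj w‖ < 1 := by
    rw [norm_mul, RCLike.norm_conj]
    nlinarith [norm_nonneg z, norm_nonneg w]
  rw [← sub_eq_zero.mp h0] at h1
  simp at h1

lemma isKernel_szego : IsKernel (fun z w : dom => 1 / (1 - (z : ℂ) * conj (w : ℂ))) := by
  refine (isKernel_rank (fun z : dom => (z : ℂ))).inv_one_sub fun z => ?_
  have h := norm_lt_of_mem z.2
  rw [mul_conj, Complex.ofReal_re, normSq_eq_norm_sq]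
  nlinarith [norm_nonneg (z : ℂ)]

lemma isKernel_bergman : IsKernel (onDomain dom bergman) := by
  refine (isKernel_szego.mul isKernel_szego).congr fun z w => ?_
  unfold onDomain bergman
  rw [sq, one_div_mul_one_div]

/-- The kernel `h`. -/
lemma isKernel_h : IsKernel (onDomain dom fun z w => 1 - bergman z w * (1 - kA z w)) := by
  have k1 := isKernel_rank (fun z : dom => pS z)
  have k2 := isKernel_rank (fun z : dom => pQ z)
  have kx := isKernel_rank (fun z : dom => (z : ℂ))
  have ke := isKernel_rank (fun z : dom => 1 +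
    ((-110357438610 + 15371030802 * I) / 112436672594) * (z : ℂ))
  have kg := isKernel_rank (fun z : dom => 1 / pG z)
  have t1 := isKernel_szego.smul (show (0 : ℝ) ≤ 171678219290 by norm_num)
  have t2 := (isKernel_bergman.mul ke).smul (show (0 : ℝ) ≤ 112436672594 by norm_num)
  have t3 := (isKernel_bergman.mul kx).smul (show (0 : ℝ) ≤
    112436672594 - 12415032844475951495304 / 112436672594 by norm_num)
  refine (kg.mul (k1.add (k2.mul ((t1.add t2).add t3)))).congr fun z w => ?_
  have hG := pG_ne_zero z.2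
  have hG' := pG_ne_zero w.2
  rw [Ne, ← map_eq_zero (starRingEnd ℂ), conj_pG] at hG'
  have hx := one_sub_mul_ne (norm_lt_of_mem z.2) (norm_lt_of_mem w.2)
  have hI := main_identity (z : ℂ) (conj (w : ℂ))
  unfold onDomain bergman kA
  simp only [map_div₀, map_one, map_add, map_mul, map_neg, map_ofNat, conj_I, conj_pF, conj_pG,
    conj_pS, conj_pQ]
  push_cast
  generalize pF (z : ℂ) = F at *
  generalize cF (conj (w : ℂ)) = F' at *
  generalize pG (z : ℂ) = G at *
  generalize cG (conj (w : ℂ)) = G' at *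
  generalize pS (z : ℂ) = S at *
  generalize cS (conj (w : ℂ)) = S' at *
  generalize pQ (z : ℂ) = Q at *
  generalize cQ (conj (w : ℂ)) = Q' at *
  generalize conj (w : ℂ) = v at *
  generalize (z : ℂ) = x at *
  have hE : (279214891884 + (-110357438610 + 15371030802 * I) * x +
      (-110357438610 - 15371030802 * I) * v + (-59241546696) * (x * v)) + 4900000000 =
      171678219290 * (1 - x * v) + 112436672594 * ((1 + (-110357438610 + 15371030802 * I) /
        112436672594 * x) * (1 + (-110357438610 + 15371030802 * -I) / 112436672594 * v)) +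
      (112436672594 - 12415032844475951495304 / 112436672594) * (x * v) := by
    linear_combination (236268587916032763204 / 112436672594 * (x * v)) * I_sq
  have hnum : (1 - x * v) ^ 2 * (G * G') - G * G' + F * F' + 4900000000 * (Q * Q') =
      (1 - x * v) ^ 2 * (S * S') + Q * Q' * (171678219290 * (1 - x * v) + 112436672594 *
      ((1 + (-110357438610 + 15371030802 * I) /
        112436672594 * x) * (1 + (-110357438610 + 15371030802 * -I) / 112436672594 * v)) +
      (112436672594 - 12415032844475951495304 / 112436672594) * (x * v)) := by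
    rw [← hE]
    linear_combination hI
  generalize (-110357438610 + 15371030802 * I) / 112436672594 = ε at *
  generalize (-110357438610 + 15371030802 * -I) / 112436672594 = ε' at *
  generalize (112436672594 - 12415032844475951495304 / 112436672594 : ℂ) = m' at *
  have hL : 1 - 1 / (1 - x * v) ^ 2 * (1 - (F * F' + 4900000000 * (Q * Q')) / (G * G')) =
      ((1 - x * v) ^ 2 * (G * G') - G * G' + F * F' + 4900000000 * (Q * Q')) /
        ((1 - x * v) ^ 2 * (G * G')) := by
    field_simp
    ring
  rw [hL, hnum]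
  field_simp

/-- `(𝔟, ℓ)` has a strong Shimorin certificate. -/
theorem isCertificate_ell :
    IsCertificate (onDomain dom bergman) (onDomain dom ell) (onDomain dom ell) := by
  refine ⟨isCompletePick_ell, _, _, isKernel_h, isKernel_one, fun z w => ?_, fun z w => ?_⟩
  · have := one_sub_kA_ne z w
    unfold onDomain ell
    field_simp
    ring
  · rw [mul_one]

/-- `ℓ` is a holomorphic kernel. -/
theorem isHolomorphicKernel_ell : IsHolomorphicKernel dom ell := by
  have h1 := differentiable_pF
  have h2 := differentiable_pG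
  have h3 := differentiable_pQ
  have key : ∀ w ∈ dom, DifferentiableOn ℂ (fun z => ell z w) dom := by
    intro w hw
    unfold ell kA
    refine DifferentiableOn.div (differentiableOn_const _) ?_ ?_
    · refine (differentiableOn_const _).sub (DifferentiableOn.div ?_ ?_ ?_)
      · fun_prop
      · fun_prop
      · intro z hz
        refine mul_ne_zero (pG_ne_zero hz) ?_
        rw [Ne, map_eq_zero]; exact pG_ne_zero hw
    · intro z hz
      exact one_sub_kA_ne ⟨z, hz⟩ ⟨w, hw⟩
  refine ⟨isCompletePick_ell.1, key, fun z hz => ?_⟩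
  refine (key z hz).congr fun w hw => ?_
  exact (isCompletePick_ell.1.herm ⟨z, hz⟩ ⟨w, hw⟩).symm

end Pool.Agent.Lib.MP_86f1d3_an
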