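import Pool.Agent.Lib.MP_86f1d3_an.Kernel

/-!
# The vector valued reproducing kernel Hilbert spaces exist

The definition of a contractive multiplier quantifies over all realisations of the space
`H_s ⊗ ℂ^N`.  By the theorem of Moore there is one for every kernel `s`.
-/

open ComplexConjugate
open scoped ComplexOrder Matrix InnerProductSpace

namespace Pool.Agent.Lib.MP_86f1d3_an

/-- The kernel `s(x,y) I_N` of the space `H_s ⊗ ℂ^N`. -/
noncomputable def vecKernel {X : Type} (s : X → X → ℂ) (N : ℕ) :
    Matrix X X (Cn N →L[ℂ] Cn N) :=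
  Matrix.of (fun x y => s x y • ContinuousLinearMap.id ℂ (Cn N))

lemma posSemidef_vecKernel {X : Type} {s : X → X → ℂ} (hs : IsKernel s) (N : ℕ) :
    (vecKernel s N).PosSemidef := by
  have key : (vecKernel s N).PosSemidef ↔ (vecKernel s N).IsHermitian ∧ ∀ vv : X →₀ Cn N,
      0 ≤ RCLike.re (vv.sum fun x w => vv.sum fun x' w' => ⟪(vecKernel s N) x' x w, w'⟫_ℂ) :=
    RKHS.posSemidef_tfae.out 0 2
  refine key.mpr ⟨?_, ?_⟩
  · ext x y : 2
    rw [Matrix.conjTranspose_apply]
    unfold vecKernel
    rw [Matrix.of_apply, Matrix.of_apply, star_smul, hs.herm x y]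
    simp only [RCLike.star_def, Complex.conj_conj]
    congr 1
    have e : star (ContinuousLinearMap.id ℂ (Cn N)) = ContinuousLinearMap.id ℂ (Cn N) :=
      ContinuousLinearMap.adjoint_id
    rw [e]
  · intro vv
    have h : vv.sum (fun x w => vv.sum fun x' w' => ⟪(vecKernel s N) x' x w, w'⟫_ℂ) =
        ∑ i : Fin N, form s (fun x : vv.support => (x : X)) (fun x => vv x i) := by
      unfold form
      rw [Finset.sum_comm]
      rw [Finsupp.sum, ← Finset.sum_coe_sort]
      refine Finset.sum_congr rfl fun x _ => ?_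
      rw [Finset.sum_comm]
      rw [Finsupp.sum, ← Finset.sum_coe_sort]
      refine Finset.sum_congr rfl fun y _ => ?_
      have e : (vecKernel s N) (y : X) (x : X) (vv x) = s y x • vv x := by
        simp [vecKernel]
      rw [e, inner_smul_left, ← hs.herm, PiLp.inner_apply, Finset.mul_sum]
      refine Finset.sum_congr rfl fun i _ => ?_
      rw [RCLike.inner_apply]
      ring
    rw [h]
    show 0 ≤ (∑ i : Fin N, form s (fun x : vv.support => (x : X)) (fun x => vv x i)).re
    rw [Complex.re_sum]
    exact Finset.sum_nonneg fun i _ => hs.form_re_nonneg _ _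

/-- For every kernel `s` and every `N` the space `H_s ⊗ ℂ^N` exists. -/
theorem exists_realisation {X : Type} {s : X → X → ℂ} (hs : IsKernel s) (N : ℕ) :
    ∃ (H : Type) (_ : NormedAddCommGroup H) (_ : InnerProductSpace ℂ H) (_ : CompleteSpace H)
      (_ : RKHS ℂ H X (Cn N)), IsTensorSpace s H := by
  have : Fact (vecKernel s N).PosSemidef := ⟨posSemidef_vecKernel hs N⟩
  refine ⟨RKHS.OfKernel (vecKernel s N), inferInstance, inferInstance, inferInstance,
    inferInstance, fun y v => ⟨RKHS.kerFun _ y v, fun x => ?_, fun f => ?_⟩⟩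
  · rw [RKHS.kerFun_apply, RKHS.OfKernel.kernel_ofKernel]
    simp [vecKernel]
  · rw [RKHS.kerFun_inner, PiLp.inner_apply]
    refine Finset.sum_congr rfl fun i _ => ?_
    rw [RCLike.inner_apply, mul_comm]

end Pool.Agent.Lib.MP_86f1d3_an
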