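import Pool.Agent.Lib.MP_86f1d3_an.Values
import Pool.Agent.Lib.MP_86f1d3_an.Normalize

/-!
# A normalised rank one certificate has prescribed values at the two points
-/

set_option linter.unusedSimpArgs false

open ComplexConjugate Complex
open scoped ComplexOrder Matrix

namespace Pool.Agent.Lib.MP_86f1d3_an

lemma form_two {X : Type} {K : X → X → ℂ} (hK : IsKernel K) (x y : X) (c d : ℂ) :
    (form K ![x, y] ![c, d]).re = normSq c * (K x x).re + normSq d * (K y y).re +
      2 * (conj c * d * K x y).re := by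
  have h1 := hK.herm x y
  have hx := hK.diag_im x
  have hy := hK.diag_im y
  simp only [form, Fin.sum_univ_two, Matrix.cons_val_zero, Matrix.cons_val_one, h1, add_re, mul_re,
    mul_im, conj_re, conj_im, hx, hy, normSq_apply]
  ring

/-- The linear algebra at the heart of the counterexample. -/
lemma linear_step {x₁ x₂ P Q : ℝ}
    (h₁ : 0 ≤ -676962109621028504 / 161708536992645 + 821079617481 / 210685225 * x₁ + 288 * x₂ +
      47635603308 / 30946633175 * P + 15864508044 / 30946633175 * Q)
    (h₂ : 0 ≤ 4679222820570004837239633144826262352072018435417 / 41034272758528 -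
      107146082313879897982614449966312976 * x₁ -
      663667122612440405079665638864955086885425 / 96232192 * x₂ -
      3190207546985067088928211325853576664 / 426409 * P +
      4547584177099066888119498265399653048 / 426409 * Q)
    (h₃ : 0 ≤ 153397064641 / 192464384 - 153589529025 / 192464384 * x₂)
    (h₄ : 0 ≤ 153397064641 / 153589529025 * x₁ + 59048 / 59049 * x₂ -
      775735532 / 476164575 * P - 551374076 / 476164575 * Q) :
    (-676962109621028504 / 161708536992645 + 821079617481 / 210685225 * x₁ + 288 * x₂ +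
      47635603308 / 30946633175 * P + 15864508044 / 30946633175 * Q = 0) ∧
    (153397064641 / 192464384 - 153589529025 / 192464384 * x₂ = 0) ∧
    (153397064641 / 153589529025 * x₁ + 59048 / 59049 * x₂ -
      775735532 / 476164575 * P - 551374076 / 476164575 * Q = 0) := by
  have key : 27487709249159451198441971202075 * (-676962109621028504 / 161708536992645 +
      821079617481 / 210685225 * x₁ + 288 * x₂ +
      47635603308 / 30946633175 * P + 15864508044 / 30946633175 * Q) +
      (4679222820570004837239633144826262352072018435417 / 41034272758528 -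
      107146082313879897982614449966312976 * x₁ -
      663667122612440405079665638864955086885425 / 96232192 * x₂ -
      3190207546985067088928211325853576664 / 426409 * P +
      4547584177099066888119498265399653048 / 426409 * Q) +
      1304887735216090796921230182174 *
        (153397064641 / 192464384 - 153589529025 / 192464384 * x₂) +
      21379329416012906487677088712725 * (153397064641 / 153589529025 * x₁ + 59048 / 59049 * x₂ -
      775735532 / 476164575 * P - 551374076 / 476164575 * Q) = 0 := by ring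
  refine ⟨?_, ?_, ?_⟩ <;> linarith

/-- The points `0`, `w₁`, `w₂` of the domain. -/
def pt₀ : dom := ⟨0, zero_mem_dom⟩
/-- See `pt₀`. -/
noncomputable def pt₁ : dom := ⟨w₁, w₁_mem⟩
/-- See `pt₀`. -/
noncomputable def pt₂ : dom := ⟨w₂, w₂_mem⟩

lemma ell_zero_right (z : ℂ) : ell z 0 = 1 := by
  unfold ell kA
  rw [pF_zero, pQ_zero]
  simp

lemma ell_zero_left (z : ℂ) : ell 0 z = 1 := by
  unfold ell kA
  rw [pF_zero, pQ_zero]
  simp

lemma normSq_conj_θ₂ : normSq (conj θ₂) = 1126309489 / 1896167025 := by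
  rw [normSq_conj]
  simp only [θ₂, normSq_apply, sub_re, mul_re, I_re, sub_im, mul_im, I_im, div_ofNat_re,
    div_ofNat_im, re_ofNat, im_ofNat]
  norm_num

lemma normSq_neg_conj_θ₁ : normSq (-conj θ₁) = 8 / 9 := by
  rw [normSq_neg, normSq_conj]
  simp only [θ₁, normSq_apply, sub_re, mul_re, I_re, sub_im, mul_im, I_im, div_ofNat_re,
    div_ofNat_im, re_ofNat, im_ofNat]
  norm_num

/-- The first inequality. -/
lemma ineq₁ {H : dom → ℂ}
    (hK : IsKernel (fun z w : dom => 1 - bergman z w * (1 - H z * conj (H w)))) :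
    (form (fun z w : dom => 1 - bergman z w * (1 - H z * conj (H w)))
      ![pt₁, pt₂] ![conj θ₂, -conj θ₁]).re =
    -676962109621028504 / 161708536992645 + 821079617481 / 210685225 *
      ((H pt₁).re ^ 2 + (H pt₁).im ^ 2) + 288 * ((H pt₂).re ^ 2 + (H pt₂).im ^ 2) +
      47635603308 / 30946633175 * ((H pt₁).re * (H pt₂).re + (H pt₁).im * (H pt₂).im) +
      15864508044 / 30946633175 * ((H pt₁).im * (H pt₂).re - (H pt₁).re * (H pt₂).im) := by
  rw [form_two hK, normSq_conj_θ₂, normSq_neg_conj_θ₁]
  have e1 : bergman (pt₁ : ℂ) (pt₁ : ℂ) = 6561 := bergman_w₁_w₁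
  have e2 : bergman (pt₂ : ℂ) (pt₂ : ℂ) = 324 := bergman_w₂_w₂
  have e3 : bergman (pt₁ : ℂ) (pt₂ : ℂ) = (-229635 + 416988 * I) / 426409 := bergman_w₁_w₂
  rw [e1, e2, e3, conj_conj, conj_θ₁]
  simp only [θ₂, sub_re, mul_re, I_re, sub_im, mul_im, I_im, div_ofNat_re, add_re, add_im,
    neg_re, neg_im, conj_re, conj_im, one_re, one_im,
    div_ofNat_im, re_ofNat, im_ofNat]
  ring

/-- The second kernel. -/
lemma isKernel_pi {H : dom → ℂ} (h0 : H pt₀ = 0)
    (hK : IsKernel (fun z w : dom => ell z w * (1 - H z * conj (H w)))) :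
    IsKernel (fun z w : dom => ell z w * (1 - H z * conj (H w)) - 1) := by
  have e1 : ∀ z : dom, ell z pt₀ * (1 - H z * conj (H pt₀)) = 1 := by
    intro z
    rw [h0, map_zero, mul_zero, sub_zero, mul_one]
    exact ell_zero_right z
  have e2 : ∀ z : dom, ell pt₀ z * (1 - H pt₀ * conj (H z)) = 1 := by
    intro z
    rw [h0, zero_mul, sub_zero, mul_one]
    exact ell_zero_left z
  refine (hK.schur pt₀ ?_).congr fun z w => ?_
  · rw [e1]; exact one_ne_zero
  · rw [e1, e1, e2]; simp

/-- The second inequality. -/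
lemma ineq₂ {H : dom → ℂ}
    (hK : IsKernel (fun z w : dom => ell z w * (1 - H z * conj (H w)) - 1)) :
    (form (fun z w : dom => ell z w * (1 - H z * conj (H w)) - 1)
      ![pt₁, pt₂] ![1347044287436332, 2806886500515785 - 873771308904087 * I]).re =
    4679222820570004837239633144826262352072018435417 / 41034272758528 -
      107146082313879897982614449966312976 * ((H pt₁).re ^ 2 + (H pt₁).im ^ 2) -
      663667122612440405079665638864955086885425 / 96232192 *
        ((H pt₂).re ^ 2 + (H pt₂).im ^ 2) -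
      3190207546985067088928211325853576664 / 426409 *
        ((H pt₁).re * (H pt₂).re + (H pt₁).im * (H pt₂).im) +
      4547584177099066888119498265399653048 / 426409 *
        ((H pt₁).im * (H pt₂).re - (H pt₁).re * (H pt₂).im) := by
  rw [form_two hK]
  have e1 : ell (pt₁ : ℂ) (pt₁ : ℂ) = 59049 := ell_w₁_w₁
  have e2 : ell (pt₂ : ℂ) (pt₂ : ℂ) = 153589529025 / 192464384 := ell_w₂_w₂
  have e3 : ell (pt₁ : ℂ) (pt₂ : ℂ) = 1681752501253647 / 3351986776031837 +
    5250896051291154 / 3351986776031837 * I := ell_w₁_w₂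
  rw [e1, e2, e3]
  simp only [normSq_apply, sub_re, mul_re, I_re, sub_im, mul_im, I_im, div_ofNat_re, add_re, add_im,
    neg_re, neg_im, conj_re, conj_im, one_re, one_im,
    div_ofNat_im, re_ofNat, im_ofNat]
  ring

/-- The third inequality. -/
lemma ineq₃ {H : dom → ℂ} : ((fun z w : dom => ell z w * (1 - H z * conj (H w)) - 1) pt₂ pt₂).re =
    153397064641 / 192464384 - 153589529025 / 192464384 *
      ((H pt₂).re ^ 2 + (H pt₂).im ^ 2) := by
  have e2 : ell (pt₂ : ℂ) (pt₂ : ℂ) = 153589529025 / 192464384 := ell_w₂_w₂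
  simp only [e2]
  simp only [normSq_apply, sub_re, mul_re, I_re, sub_im, mul_im, I_im, div_ofNat_re, add_re, add_im,
    neg_re, neg_im, conj_re, conj_im, one_re, one_im,
    div_ofNat_im, re_ofNat, im_ofNat]
  ring

/-- The fourth inequality. -/
lemma ineq₄ (a b : ℂ) : normSq (γ₂ * a - γ₁ * b) =
    153397064641 / 153589529025 * (a.re ^ 2 + a.im ^ 2) + 59048 / 59049 * (b.re ^ 2 + b.im ^ 2) -
      775735532 / 476164575 * (a.re * b.re + a.im * b.im) -
      551374076 / 476164575 * (a.im * b.re - a.re * b.im) := by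
  simp only [γ₁, γ₂, normSq_apply, sub_re, mul_re, I_re, sub_im, mul_im, I_im, div_ofNat_re, add_re,
    add_im, neg_re, neg_im, conj_re, conj_im, one_re, one_im,
    div_ofNat_im, re_ofNat, im_ofNat]
  ring

lemma γ₁_ne : γ₁ ≠ 0 := by
  intro h
  have := congrArg Complex.re h
  simp only [γ₁, sub_re, mul_re, I_re, I_im, div_ofNat_re, re_ofNat, im_ofNat, zero_re] at this
  norm_num at this

lemma γ₂_ne : γ₂ ≠ 0 := by
  intro h
  have := congrArg Complex.re h
  simp only [γ₂, sub_re, mul_re, I_re, I_im, div_ofNat_re, div_ofNat_im, re_ofNat, im_ofNat,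
    zero_re] at this
  norm_num at this

lemma normSq_γ₂ : normSq γ₂ = 153397064641 / 153589529025 := by
  simp only [γ₂, normSq_apply, sub_re, mul_re, I_re, sub_im, mul_im, I_im, div_ofNat_re,
    div_ofNat_im, re_ofNat, im_ofNat]
  norm_num

/-- **The values of a normalised rank one certificate.** -/
theorem exists_unimodular {H : dom → ℂ} (h0 : H pt₀ = 0)
    (hK₁ : IsKernel (fun z w : dom => 1 - bergman z w * (1 - H z * conj (H w))))
    (hK₂ : IsKernel (fun z w : dom => ell z w * (1 - H z * conj (H w)))) :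
    form (fun z w : dom => 1 - bergman z w * (1 - H z * conj (H w)))
      ![pt₁, pt₂] ![conj θ₂, -conj θ₁] = 0 ∧
    ∃ c : ℂ, normSq c = 1 ∧ H pt₁ = c * γ₁ ∧ H pt₂ = c * γ₂ := by
  have hK₃ := isKernel_pi h0 hK₂
  have i₁ := hK₁.form_re_nonneg ![pt₁, pt₂] ![conj θ₂, -conj θ₁]
  have i₂ := hK₃.form_re_nonneg ![pt₁, pt₂] ![1347044287436332, 2806886500515785 - 873771308904087 * I]
  have i₃ := hK₃.diag_re pt₂
  have i₄ := normSq_nonneg (γ₂ * H pt₁ - γ₁ * H pt₂)
  rw [ineq₁ hK₁] at i₁
  rw [ineq₂ hK₃] at i₂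
  rw [ineq₃] at i₃
  rw [ineq₄] at i₄
  obtain ⟨e₁, e₃, e₄⟩ := linear_step i₁ i₂ i₃ i₄
  constructor
  · apply Complex.ext
    · rw [ineq₁ hK₁, e₁]; rfl
    · exact form_im hK₁.herm _ _
  · rw [← ineq₄, normSq_eq_zero, sub_eq_zero] at e₄
    have hb : normSq (H pt₂) = normSq γ₂ := by
      rw [normSq_γ₂, normSq_apply]
      linarith
    refine ⟨H pt₂ / γ₂, ?_, ?_, ?_⟩
    · rw [normSq_div, hb, div_self]
      rw [Ne, normSq_eq_zero]; exact γ₂_ne
    · have := γ₂_ne
      field_simp
      linear_combination e₄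
    · have := γ₂_ne
      field_simp

end Pool.Agent.Lib.MP_86f1d3_an
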