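import Pool.Agent.Lib.MP_86f1d3_an.Path

/-!
# The values at the two points
-/

set_option linter.unusedSimpArgs false

open ComplexConjugate Complex
open scoped ComplexOrder Matrix

namespace Pool.Agent.Lib.MP_86f1d3_an

/-- The value of the extremal function at the first point. -/
noncomputable def γ₁ : ℂ := (902 - 814 * I) / 1215

/-- The value of the extremal function at the second point. -/
noncomputable def γ₂ : ℂ := 16996 / 78381 - 42481 / 43545 * I

/-- The first factor of `h`. -/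
noncomputable def θ₁ : ℂ := (2 - 14 * I) / 15

/-- The second factor of `h`. -/
noncomputable def θ₂ : ℂ := 26033 / 43545 - 1412 / 2903 * I

lemma I_pow_five : I ^ 5 = I := by rw [pow_succ, I_pow_four, one_mul]

lemma I_pow_six : I ^ 6 = -1 := by rw [pow_succ, I_pow_five, ← sq, I_sq]

lemma conj_w₁ : conj w₁ = (8 - 4 * I) / 9 := by
  simp only [w₁, map_div₀, map_add, map_mul, map_ofNat, conj_I]; ring

lemma conj_w₂ : conj w₂ = (5 + 3 * I) / 6 := by
  simp only [w₂, map_div₀, map_sub, map_mul, map_ofNat, conj_I]; ring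

lemma conj_γ₁ : conj γ₁ = (902 + 814 * I) / 1215 := by
  simp only [γ₁, map_div₀, map_sub, map_mul, map_ofNat, conj_I]; ring

lemma conj_γ₂ : conj γ₂ = 16996 / 78381 + 42481 / 43545 * I := by
  simp only [γ₂, map_div₀, map_sub, map_mul, map_ofNat, conj_I]; ring

lemma conj_θ₁ : conj θ₁ = (2 + 14 * I) / 15 := by
  simp only [θ₁, map_div₀, map_sub, map_mul, map_ofNat, conj_I]; ring

lemma conj_θ₂ : conj θ₂ = 26033 / 43545 + 1412 / 2903 * I := by
  simp only [θ₂, map_div₀, map_sub, map_mul, map_ofNat, conj_I]; ring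

lemma pQ_w₁ : pQ w₁ = 0 := by
  unfold pQ w₁
  ring_nf
  simp only [I_sq, I_pow_three, I_pow_four, I_pow_five, I_pow_six]
  ring

lemma pQ_w₂ : pQ w₂ = 0 := by
  unfold pQ w₂
  ring_nf
  simp only [I_sq, I_pow_three, I_pow_four, I_pow_five, I_pow_six]
  ring

lemma pF_w₁ : pF w₁ = γ₁ * pG w₁ := by
  unfold pF pG w₁ γ₁
  ring_nf
  simp only [I_sq, I_pow_three, I_pow_four, I_pow_five, I_pow_six]
  ring

lemma pF_w₂ : pF w₂ = γ₂ * pG w₂ := by
  unfold pF pG w₂ γ₂
  ring_nf
  simp only [I_sq, I_pow_three, I_pow_four, I_pow_five, I_pow_six]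
  ring

lemma pF_zero : pF 0 = 0 := by simp [pF]

lemma pQ_zero : pQ 0 = 0 := by simp [pQ]

lemma pS_w₁_ne : pS w₁ ≠ 0 := by
  have : pS w₁ = 393049736 / 81 + 354557768 / 81 * I := by
    unfold pS w₁
    ring_nf
    simp only [I_sq, I_pow_three, I_pow_four, I_pow_five, I_pow_six]
    ring
  intro h
  rw [this] at h
  have := congrArg Complex.re h
  norm_num at this

lemma kA_w₁_w₁ : kA w₁ w₁ = γ₁ * conj γ₁ := by
  have h := pG_ne_zero w₁_mem
  have h' : conj (pG w₁) ≠ 0 := by rwa [Ne, map_eq_zero]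
  unfold kA
  rw [pF_w₁, pQ_w₁, map_mul]
  field_simp
  simp

lemma kA_w₂_w₂ : kA w₂ w₂ = γ₂ * conj γ₂ := by
  have h := pG_ne_zero w₂_mem
  have h' : conj (pG w₂) ≠ 0 := by rwa [Ne, map_eq_zero]
  unfold kA
  rw [pF_w₂, pQ_w₂, map_mul]
  field_simp
  simp

lemma kA_w₁_w₂ : kA w₁ w₂ = γ₁ * conj γ₂ := by
  have h := pG_ne_zero w₁_mem
  have h' : conj (pG w₂) ≠ 0 := by rw [Ne, map_eq_zero]; exact pG_ne_zero w₂_mem
  unfold kA
  rw [pF_w₁, pF_w₂, pQ_w₁, map_mul]
  field_simp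
  simp

lemma ell_w₁_w₁ : ell w₁ w₁ = 59049 := by
  have h : (1 - γ₁ * conj γ₁) * 59049 = 1 := by
    rw [conj_γ₁, γ₁]
    ring_nf
    simp only [I_sq]
    norm_num
  unfold ell
  rw [kA_w₁_w₁, one_div]
  exact inv_eq_of_mul_eq_one_right h

lemma ell_w₂_w₂ : ell w₂ w₂ = 153589529025 / 192464384 := by
  have h : (1 - γ₂ * conj γ₂) * (153589529025 / 192464384) = 1 := by
    rw [conj_γ₂, γ₂]
    ring_nf
    simp only [I_sq]
    norm_num
  unfold ell
  rw [kA_w₂_w₂, one_div]
  exact inv_eq_of_mul_eq_one_right h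

lemma ell_w₁_w₂ : ell w₁ w₂ = 1681752501253647 / 3351986776031837 +
    5250896051291154 / 3351986776031837 * I := by
  have h : (1 - γ₁ * conj γ₂) * (1681752501253647 / 3351986776031837 +
    5250896051291154 / 3351986776031837 * I) = 1 := by
    rw [conj_γ₂, γ₁]
    ring_nf
    simp only [I_sq, I_pow_three]
    ring
  unfold ell
  rw [kA_w₁_w₂, one_div]
  exact inv_eq_of_mul_eq_one_right h

lemma bergman_w₁_w₁ : bergman w₁ w₁ = 6561 := by
  have h : (1 - w₁ * conj w₁) ^ 2 * 6561 = 1 := by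
    rw [conj_w₁, w₁]
    ring_nf
    simp only [I_sq, I_pow_four]
    norm_num
  unfold bergman
  rw [one_div]
  exact inv_eq_of_mul_eq_one_right h

lemma bergman_w₂_w₂ : bergman w₂ w₂ = 324 := by
  have h : (1 - w₂ * conj w₂) ^ 2 * 324 = 1 := by
    rw [conj_w₂, w₂]
    ring_nf
    simp only [I_sq, I_pow_four]
    norm_num
  unfold bergman
  rw [one_div]
  exact inv_eq_of_mul_eq_one_right h

lemma bergman_w₁_w₂ : bergman w₁ w₂ = (-229635 + 416988 * I) / 426409 := by
  have h : (1 - w₁ * conj w₂) ^ 2 * ((-229635 + 416988 * I) / 426409) = 1 := by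
    rw [conj_w₂, w₁]
    ring_nf
    simp only [I_sq, I_pow_three, I_pow_four, I_pow_five]
    ring
  unfold bergman
  rw [one_div]
  exact inv_eq_of_mul_eq_one_right h

end Pool.Agent.Lib.MP_86f1d3_an
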